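import Pool.Agent.H112.NF.Asm
import Pool.Graph.R_pool_sql_team_seeded_3997aac3.Q92.AR.All

/-!
# Project NF: the Artin L-functions of a Galois extension
-/

set_option autoImplicit false
set_option linter.unusedSectionVars false

namespace Pool.Agent.H112.NF

open MeasureTheory Filter Topology Set Complex NumberField IsDedekindDomain
open Pool.Agent.Q253.NF
open Pool.Agent.Q92.AR (Unramified frob Continues LP artinL fixer cont cont_spec exists_continues)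
open Pool.Agent.Q92.RT (induced induced_conj induced_pair class_expand)
open Pool.Agent.H541R3.ART (Irr irrF mem_irrF exists_mult)
open scoped ComplexConjugate

/-! ### Continuity of the prime sums -/

section
variable {F : Type} [Field F] [NumberField F]

theorem ks_cont (P : Set (HeightOneSpectrum (𝓞 F))) (c : HeightOneSpectrum (𝓞 F) → ℕ → ℂ) (B : ℝ) (hB : 0 ≤ B)
    (hc : ∀ v n, ‖c v n‖ ≤ B) : Continuous (ks P c) := by
  classical
  have hψ : ∀ 𝔞, ‖Pool.Agent.Q262.NF.triv F 𝔞‖ ≤ 1 :=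
    Pool.Agent.Q262.NF.prim_norm Pool.Agent.Q262.NF.triv_prim
  have h1 := (Pool.Agent.Q151.NF.t_LTG (HeightOneSpectrum (𝓞 F) × ℕ)
    (fun x => if x.1 ∈ P then c x.1 x.2 * ((Real.log (Ideal.absNorm x.1.asIdeal) *
      Real.exp (-(((x.2 : ℝ) + 1) * Real.log (Ideal.absNorm x.1.asIdeal) / 2)) : ℝ) : ℂ) else 0)
    (fun x => Pool.Agent.H289.NF.lk x) Pool.Agent.H289.NF.lk_nonneg ?_).1
  · refine h1.congr fun u => ?_
    unfold ks
    refine tsum_congr fun x => ?_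
    unfold Pool.Agent.H289.NF.lk
    split_ifs
    · push_cast
      ring
    · rw [zero_mul]
  · intro x hx
    refine Summable.of_nonneg_of_le (fun k => by positivity) (fun k => ?_)
      ((Pool.Agent.H289.NF.summ (K := F) hψ hx).mul_left B)
    rw [← mul_assoc]
    refine mul_le_mul_of_nonneg_right ?_ (Real.exp_pos _).le
    have h2 : ‖Pool.Agent.H289.NF.bk (Pool.Agent.Q262.NF.triv F) k‖ =
        ‖((Real.log (Ideal.absNorm k.1.asIdeal) *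
      Real.exp (-(((k.2 : ℝ) + 1) * Real.log (Ideal.absNorm k.1.asIdeal) / 2)) : ℝ) : ℂ)‖ := by
      unfold Pool.Agent.H289.NF.bk
      rw [Pool.Agent.Q262.NF.triv_apply k.1.ne_bot, one_pow, one_mul]
    rw [h2]
    split_ifs
    · rw [norm_mul]
      exact mul_le_mul_of_nonneg_right (hc _ _) (norm_nonneg _)
    · rw [norm_zero]
      positivity

end

section
variable (K M : Type) [Field K] [NumberField K] [Field M] [NumberField M] [Algebra K M] [IsGalois K M]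

open Classical in
/-- the data of the Artin L-function of an irreducible character -/
structure Pk (χ : (M ≃ₐ[K] M) → ℂ) where
  ι : Type
  fin : Fintype ι
  D : ι → Dat
  n : ι → ℤ
  hp : ∑ i, n i * ((D i).p : ℤ) = if ∀ g, χ g = 1 then 1 else 0
  hE : ∃ C : ℝ, ∀ u : ℝ, 0 ≤ u → ‖ks {v : HeightOneSpectrum (𝓞 K) | Unramified M v}
      (fun v n => χ (frob M v ^ (n + 1))) u - ∑ i, (n i : ℂ) * (D i).E u‖ ≤ C * Real.exp (-(u / 4))
  hO : ∀ f : ℂ → ℂ, Continues f (artinL M χ) → ∀ s : ℂ, 0 < s.re →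
      meromorphicOrderAt f s =
        ((nn D n (s - 1 / 2) - (if s = 1 then ∑ i, n i * ((D i).p : ℤ) else 0) : ℤ) : WithTop ℤ)

theorem exists_pk {χ : (M ≃ₐ[K] M) → ℂ} (hχ : χ ∈ Irr (M ≃ₐ[K] M)) : Nonempty (Pk K M χ) := by
  obtain ⟨ι, fin, D, n, h1, h2, h3⟩ := artd K M χ hχ
  exact ⟨⟨ι, fin, D, n, h1, h2, h3⟩⟩

variable {K M}

/-- the order at `s` of the Artin L-function -/
noncomputable def ordA (χ : (M ≃ₐ[K] M) → ℂ) (s : ℂ) : ℤ := (meromorphicOrderAt (cont (artinL M χ)) s).untop₀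

theorem exists_cont {χ : (M ≃ₐ[K] M) → ℂ} (hχ : χ ∈ Irr (M ≃ₐ[K] M)) : ∃ f, Continues f (artinL M χ) :=
  (Pool.Agent.Q92.AR.continued (K := K) (M := M) (s₀ := 2) (by norm_num) (by norm_num)).brauer χ hχ

open Classical in
/-- the prime sum of the L-function without its main term -/
noncomputable def SS (χ : (M ≃ₐ[K] M) → ℂ) (u : ℝ) : ℂ :=
  ks {v : HeightOneSpectrum (𝓞 K) | Unramified M v} (fun v n => χ (frob M v ^ (n + 1))) u -
    if ∀ g, χ g = 1 then ((8 / 3 * Real.exp (u / 2) : ℝ) : ℂ) else 0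

theorem SS_cont (χ : (M ≃ₐ[K] M) → ℂ) : Continuous (SS χ) := by
  classical
  obtain ⟨C, hC0, hC⟩ := Pool.Agent.Q92.AR.exists_bound χ
  refine (ks_cont _ _ C hC0 fun v n => hC _).sub ?_
  split_ifs
  · fun_prop
  · fun_prop

/-- the mean square -/
noncomputable def WW (χ : (M ≃ₐ[K] M) → ℂ) (U : ℝ) : ℝ := (1 / U) * ∫ u in (0 : ℝ)..U, ‖SS χ u‖ ^ 2

namespace Pk

variable {χ : (M ≃ₐ[K] M) → ℂ} (P : Pk K M χ)

/-- the multiplicity of `1/2 + a` -/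
noncomputable def N (a : ℂ) : ℤ := letI := P.fin; nn P.D P.n a

open Classical in
theorem ord_eq (hχ : χ ∈ Irr (M ≃ₐ[K] M)) {s : ℂ} (hs : 0 < s.re) :
    ordA χ s = P.N (s - 1 / 2) - if s = 1 then (if ∀ g, χ g = 1 then 1 else 0) else 0 := by
  letI := P.fin
  unfold ordA
  rw [P.hO _ (cont_spec (exists_cont hχ)) s hs, P.hp]
  rfl

theorem near : letI := P.fin; ∃ C : ℝ, ∀ u : ℝ, 0 ≤ u → ‖SS χ u - PP P.D P.n u‖ ≤ C * Real.exp (-(u / 4)) := by
  classical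
  letI := P.fin
  obtain ⟨C, hC⟩ := P.hE
  refine ⟨C, fun u hu => ?_⟩
  have h1 : SS χ u - PP P.D P.n u = ks {v : HeightOneSpectrum (𝓞 K) | Unramified M v}
      (fun v n => χ (frob M v ^ (n + 1))) u - ∑ i, (P.n i : ℂ) * (P.D i).E u := by
    unfold SS PP Dat.P
    simp_rw [mul_sub, Finset.sum_sub_distrib]
    have h2 : ∑ i, (P.n i : ℂ) * (((P.D i).p : ℂ) * ((8 / 3 * Real.exp (u / 2) : ℝ) : ℂ)) =
        if ∀ g, χ g = 1 then ((8 / 3 * Real.exp (u / 2) : ℝ) : ℂ) else 0 := by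
      simp_rw [← mul_assoc]
      rw [← Finset.sum_mul]
      have h3 : ∑ i, (P.n i : ℂ) * ((P.D i).p : ℂ) = ((∑ i, P.n i * ((P.D i).p : ℤ) : ℤ) : ℂ) := by
        push_cast
        rfl
      rw [h3, P.hp]
      split_ifs <;> simp
    rw [h2]
    ring
  rw [h1]
  exact hC u hu

/-- symmetry -/
theorem N_conj (a : ℂ) : P.N (-conj a) = P.N a := by
  letI := P.fin
  unfold N nn
  exact Finset.sum_congr rfl fun i _ => by rw [Pool.Agent.Q124.NF.m_conj]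

theorem N_strip {a : ℂ} (ha : 1 / 2 < |a.re|) : P.N a = 0 := by
  letI := P.fin
  unfold N nn
  refine Finset.sum_eq_zero fun i _ => ?_
  have h : (P.D i).m a = 0 := by
    by_contra h
    exact absurd (m_strip _ h) (not_le.2 ha)
  rw [h]
  simp

end Pk

open Classical in
/-- no zeros and poles with `Re s > 1/2`, except for the pole of the zeta function -/
def GRH (χ : (M ≃ₐ[K] M) → ℂ) : Prop :=
  ∀ s : ℂ, 1 / 2 < s.re → ordA χ s = if s = 1 ∧ ∀ g, χ g = 1 then -1 else 0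

theorem grh_iff {χ : (M ≃ₐ[K] M) → ℂ} (hχ : χ ∈ Irr (M ≃ₐ[K] M)) (P : Pk K M χ) :
    GRH χ ↔ (letI := P.fin; Hyp P.D P.n) := by
  classical
  letI := P.fin
  have h0 : ∀ s : ℂ, 0 < s.re → ((ordA χ s = if s = 1 ∧ ∀ g, χ g = 1 then -1 else 0) ↔ P.N (s - 1 / 2) = 0) := by
    intro s hs
    rw [P.ord_eq hχ hs]
    by_cases h1 : s = 1
    · by_cases h2 : ∀ g, χ g = 1
      · rw [if_pos h1, if_pos h2, if_pos ⟨h1, h2⟩]
        omega
      · rw [if_pos h1, if_neg h2, if_neg (fun h => h2 h.2)]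
        omega
    · rw [if_neg h1, if_neg (fun h => h1 h.1)]
      omega
  constructor
  · intro h
    have h1 : ∀ a : ℂ, 0 < a.re → P.N a = 0 := by
      intro a ha
      have h2 : 1 / 2 < (a + 1 / 2).re := by
        rw [add_re]
        norm_num
        exact ha
      have h3 := (h0 (a + 1 / 2) (by linarith)).1 (h _ h2)
      rwa [add_sub_cancel_right] at h3
    intro a ha
    rcases lt_or_gt_of_ne ha with h2 | h2
    · have h3 := h1 (-conj a) (by simpa using h2)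
      rwa [P.N_conj] at h3
    · exact h1 a h2
  · intro h s hs
    refine (h0 s (by linarith)).2 (h _ ?_)
    rw [sub_re]
    norm_num
    linarith

/-! ### On the critical line -/

theorem line_eq {χ : (M ≃ₐ[K] M) → ℂ} (hχ : χ ∈ Irr (M ≃ₐ[K] M)) (P : Pk K M χ) (γ : ℝ) :
    ordA χ (1 / 2 + γ * I) = P.N (γ * I) := by
  classical
  have h1 : (1 / 2 + (γ : ℂ) * I) ≠ 1 := by
    intro h
    have h2 := congrArg Complex.re h
    simp at h2
  rw [P.ord_eq hχ (by simp), if_neg h1, sub_zero]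
  congr 1
  ring

/-- the constant of the character -/
noncomputable def Pk.V {χ : (M ≃ₐ[K] M) → ℂ} (P : Pk K M χ) : ℝ :=
  letI := P.fin
  ∑ i, (P.n i : ℝ) * (P.D i).V

theorem grh_iff_bdd {χ : (M ≃ₐ[K] M) → ℂ} (hχ : χ ∈ Irr (M ≃ₐ[K] M)) :
    GRH χ ↔ ∃ C : ℝ, ∀ᶠ U : ℝ in atTop, WW χ U ≤ C := by
  obtain ⟨P⟩ := exists_pk K M hχ
  letI := P.fin
  rw [grh_iff hχ P]
  exact hyp_iff (SS_cont χ) P.near

/-- the mean square and the Fourier means -/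
theorem art_msq {χ : (M ≃ₐ[K] M) → ℂ} (hχ : χ ∈ Irr (M ≃ₐ[K] M)) (P : Pk K M χ) (hG : GRH χ) :
    Summable (fun γ : ℝ => ((ordA χ (1 / 2 + γ * I) : ℝ) * (2 / (1 + γ ^ 2))) ^ 2) ∧
    Summable (fun γ : ℝ => (ordA χ (1 / 2 + γ * I) : ℝ) * ((ordA χ (1 / 2 + γ * I) : ℝ) - 1) *
      (2 / (1 + γ ^ 2)) ^ 2) ∧
    Tendsto (WW χ) atTop (𝓝 (P.V + ∑' γ : ℝ, (ordA χ (1 / 2 + γ * I) : ℝ) *
      ((ordA χ (1 / 2 + γ * I) : ℝ) - 1) * (2 / (1 + γ ^ 2)) ^ 2)) ∧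
    (∀ t : ℝ, Tendsto (fun U : ℝ => ((1 / U : ℝ) : ℂ) * ∫ u in (0 : ℝ)..U, -SS χ u * cexp (-(I * t * u))) atTop
      (𝓝 (((ordA χ (1 / 2 + t * I) : ℝ) * (2 / (1 + t ^ 2)) : ℝ) : ℂ))) ∧
    ∃ C : ℝ, ∀ u : ℝ, 0 ≤ u →
      ‖-SS χ u - ∑' γ : ℝ, (((ordA χ (1 / 2 + γ * I) : ℝ) * (2 / (1 + γ ^ 2)) : ℝ) : ℂ) * cexp (I * γ * u)‖ ≤
        C * Real.exp (-(u / 4)) := by
  letI := P.fin
  have hH : Hyp P.D P.n := (grh_iff hχ P).1 hG
  obtain ⟨h1, h2, h3, h4, h5, h6⟩ := msq (SS_cont χ) P.near hH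
  rw [h4] at h3
  simp_rw [line_eq hχ P]
  exact ⟨h1, h2, h3, h5, h6⟩

theorem art_V {χ : (M ≃ₐ[K] M) → ℂ} (hχ : χ ∈ Irr (M ≃ₐ[K] M)) (P : Pk K M χ) (hG : GRH χ) :
    Summable (fun γ : ℝ => (ordA χ (1 / 2 + γ * I) : ℝ) * (2 / (1 + γ ^ 2)) ^ 2) ∧
    Summable (fun γ : ℝ => |(ordA χ (1 / 2 + γ * I) : ℝ)| / (1 + γ ^ 2)) ∧
    P.V = ∑' γ : ℝ, (ordA χ (1 / 2 + γ * I) : ℝ) * (2 / (1 + γ ^ 2)) ^ 2 := by
  letI := P.fin
  have hH : Hyp P.D P.n := (grh_iff hχ P).1 hG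
  obtain ⟨h1, -, h3, -⟩ := vf P.ι P.D P.n hH
  simp_rw [line_eq hχ P]
  refine ⟨?_, h1, h3⟩
  refine Summable.of_norm_bounded (h1.mul_left 4) fun γ => ?_
  rw [norm_mul, Real.norm_eq_abs, Real.norm_of_nonneg (by positivity), div_pow, ← mul_div_assoc, ← mul_div_assoc]
  have h4 : 0 < 1 + γ ^ 2 := by positivity
  rw [div_le_div_iff₀ (by positivity) h4]
  have h5 : 1 + γ ^ 2 ≤ (1 + γ ^ 2) ^ 2 := by nlinarith [sq_nonneg γ]
  have h6 : 0 ≤ |(nn P.D P.n (γ * I) : ℝ)| := abs_nonneg _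
  change |(nn P.D P.n (γ * I) : ℝ)| * 2 ^ 2 * (1 + γ ^ 2) ≤ 4 * |(nn P.D P.n (γ * I) : ℝ)| * (1 + γ ^ 2) ^ 2
  nlinarith [mul_le_mul_of_nonneg_left h5 h6]

end

end Pool.Agent.H112.NF
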