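import Pool.Agent.H112.NF.PF

/-!
# Project NF (helper253), job VF: the constants (helper112)
-/

set_option autoImplicit false

namespace Pool.Agent.H112.NF

open MeasureTheory Filter Topology Set Complex Metric
open Pool.Agent.Q253.NF
open scoped ComplexConjugate

lemma refl_one (D : Dat) : logDeriv D.X (-1) = -conj (logDeriv D.X 1) := by
  have h0 : D.X (-1) = conj (D.X 1) := by
    have := D.sym 1
    rwa [map_one] at this
  have h1 : D.X = conj ∘ (fun w => D.X (-w)) ∘ conj := by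
    funext z
    simp only [Function.comp_apply]
    rw [D.sym, Complex.conj_conj]
  have h2 : HasDerivAt (fun w => D.X (-w)) (-deriv D.X (-1)) 1 := by
    have h3 := (D.diff (-1)).hasDerivAt
    have h4 : HasDerivAt (fun w => D.X (-w)) (deriv D.X (-1) * -1) 1 :=
      HasDerivAt.comp (1 : ℂ) (h₂ := D.X) (h := fun w : ℂ => -w) h3 (hasDerivAt_neg (1 : ℂ))
    rwa [mul_neg_one] at h4
  have h5 := h2.conj_conj
  rw [← h1, map_one] at h5
  have h6 := h5.deriv
  have h7 : deriv D.X (-1) = -conj (deriv D.X 1) := by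
    rw [h6, map_neg, map_neg, Complex.conj_conj, neg_neg]
  rw [logDeriv_apply, logDeriv_apply, h0, h7, map_div₀, neg_div]

lemma re_log_one (D : Dat) : ((2 * (logDeriv D.X 1).re : ℝ) : ℂ) =
    ∑' a : ℂ, (D.m a : ℂ) * (1 / (1 - a) - 1 / (-1 - a)) := by
  rw [← main D (z := 1) (w := -1) (by norm_num) (by norm_num), refl_one, sub_neg_eq_add,
    Complex.add_conj]

section
variable {ι : Type} [Fintype ι] (D : ι → Dat) (n : ι → ℤ)

/-- sums over the zeros of all functions and over the zeros on the line -/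
lemma lin (hyp : Hyp D n) (c : ℂ → ℂ) (hc : ∀ i, Summable fun a : ℂ => ((D i).m a : ℂ) * c a) :
    ∑ i, (n i : ℂ) * ∑' a : ℂ, ((D i).m a : ℂ) * c a = ∑' γ : ℝ, (nn D n (γ * I) : ℂ) * c (γ * I) := by
  have h1 : ∑ i, (n i : ℂ) * ∑' a : ℂ, ((D i).m a : ℂ) * c a =
      ∑' a : ℂ, (nn D n a : ℂ) * c a := by
    simp_rw [← tsum_mul_left]
    rw [← Summable.tsum_finsetSum fun i _ => (hc i).mul_left (n i : ℂ)]
    refine tsum_congr fun a => ?_
    unfold nn
    push_cast
    rw [Finset.sum_mul]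
    refine Finset.sum_congr rfl fun i _ => ?_
    ring
  rw [h1]
  have hinj : Function.Injective fun γ : ℝ => (γ : ℂ) * I := by
    intro x y h
    have h2 := congrArg Complex.im h
    simpa using h2
  symm
  refine hinj.tsum_eq (f := fun a : ℂ => (nn D n a : ℂ) * c a) ?_
  intro a ha
  rw [Function.mem_support] at ha
  have h3 : a.re = 0 := by
    by_contra h4
    apply ha
    rw [hyp a h4]
    simp
  refine ⟨a.im, ?_⟩
  apply Complex.ext <;> simp [h3]

lemma sum_term (D : Dat) {z w : ℂ} (hz : 1 / 2 < |z.re|) (hw : 1 / 2 < |w.re|) :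
    Summable fun a : ℂ => (D.m a : ℂ) * (1 / (z - a) - 1 / (w - a)) := by
  obtain ⟨d, hd, hzd, hwd⟩ := exists_d hz hw
  exact Summable.of_norm_bounded ((summ D).mul_left _) (term_le D hd hzd hwd)

lemma c_eq {a : ℂ} (h1 : 1 - a ≠ 0) (h2 : 1 + a ≠ 0) : 1 / (1 - a) - 1 / (-1 - a) = 2 / (1 - a ^ 2) := by
  have h3 : -1 - a ≠ 0 := by
    intro h
    apply h2
    linear_combination -h
  have h4 : 1 - a ^ 2 ≠ 0 := by
    rw [show 1 - a ^ 2 = (1 - a) * (1 + a) by ring]
    exact mul_ne_zero h1 h2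
  field_simp
  ring

lemma ne_of_strip {a : ℂ} (ha : |a.re| ≤ 1 / 2) : 1 - a ≠ 0 ∧ 1 + a ≠ 0 := by
  constructor
  · intro h
    rw [sub_eq_zero] at h
    rw [← h] at ha
    norm_num at ha
  · intro h
    have h2 : a = -1 := by linear_combination h
    rw [h2] at ha
    norm_num at ha

lemma sum_Z (D : Dat) (u : ℝ) : Summable fun a : ℂ => (D.m a : ℂ) * ((2 / (1 - a ^ 2)) * cexp (a * u)) := by
  have h1 := (sum_term D (z := 1) (w := -1) (by norm_num) (by norm_num)).norm
  refine Summable.of_norm_bounded (h1.mul_right (Real.exp (|u| / 2))) fun a => ?_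
  by_cases hm : D.m a = 0
  · rw [hm]
    simp
  have ha := m_strip D hm
  obtain ⟨n1, n2⟩ := ne_of_strip ha
  rw [c_eq n1 n2, ← mul_assoc, norm_mul, Complex.norm_exp]
  refine mul_le_mul_of_nonneg_left (Real.exp_le_exp.2 ?_) (norm_nonneg _)
  rw [Complex.re_mul_ofReal]
  calc a.re * u ≤ |a.re * u| := le_abs_self _
    _ = |a.re| * |u| := abs_mul _ _
    _ ≤ 1 / 2 * |u| := by gcongr
    _ = |u| / 2 := by ring

lemma sum_sq (D : Dat) : Summable fun a : ℂ => (D.m a : ℂ) * (-1 / (1 - a) ^ 2) := by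
  refine Summable.of_norm_bounded ((summ D).mul_left ((1 + (1 + 1) / (1 / 4)) ^ 2)) fun a => ?_
  by_cases hm : D.m a = 0
  · simp [hm]
  have ha := m_strip D hm
  have h4 := inv_le (z := 1) (d := 1 / 4) (by norm_num) (by norm_num) ha
  rw [norm_one] at h4
  have e : (D.m a : ℂ) * (-1 / (1 - a) ^ 2) = -((D.m a : ℂ) * (1 / (1 - a)) ^ 2) := by
    rw [div_pow, one_pow]
    ring
  rw [e, norm_neg, norm_mul, norm_pow, Complex.norm_natCast]
  calc (D.m a : ℝ) * ‖1 / (1 - a)‖ ^ 2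
      ≤ (D.m a : ℝ) * ((1 + (1 + 1) / (1 / 4)) / (1 + ‖a‖)) ^ 2 := by gcongr
    _ = (1 + (1 + 1) / (1 / 4)) ^ 2 * (D.m a * (1 / (1 + ‖a‖) ^ 2)) := by
        rw [div_pow]
        ring
    _ ≤ (1 + (1 + 1) / (1 / 4)) ^ 2 * (D.m a * (1 / (1 + ‖a‖ ^ 2))) := by
        have := sq_le a
        gcongr
    _ = _ := by ring

lemma I_one (γ : ℝ) : (1 : ℂ) / (1 - γ * I) - 1 / (-1 - γ * I) = ((2 / (1 + γ ^ 2) : ℝ) : ℂ) := by
  have h : |((γ : ℂ) * I).re| ≤ 1 / 2 := by simp
  obtain ⟨h1, h2⟩ := ne_of_strip h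
  rw [c_eq h1 h2]
  push_cast
  rw [mul_pow, I_sq]
  ring

lemma I_two (γ : ℝ) : (2 * ((1 : ℂ) / (1 - γ * I) ^ 2)).re = (2 / (1 + γ ^ 2)) ^ 2 - 2 / (1 + γ ^ 2) := by
  have h : |((γ : ℂ) * I).re| ≤ 1 / 2 := by simp
  obtain ⟨h1, h2⟩ := ne_of_strip h
  have h3 : (1 : ℂ) + (γ : ℂ) ^ 2 ≠ 0 := by
    have : (1 : ℝ) + γ ^ 2 ≠ 0 := by positivity
    exact_mod_cast this
  have e : (2 * ((1 : ℂ) / (1 - γ * I) ^ 2)) = ((2 * (1 - γ ^ 2) / (1 + γ ^ 2) ^ 2 : ℝ) : ℂ) +
      ((4 * γ / (1 + γ ^ 2) ^ 2 : ℝ) : ℂ) * I := by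
    push_cast
    field_simp
    ring_nf
    simp only [I_sq, show I ^ 3 = -I by rw [pow_succ, I_sq]; ring]
    ring
  rw [e, Complex.add_re, Complex.ofReal_re, Complex.re_ofReal_mul, I_re, mul_zero, add_zero]
  have h4 : (1 : ℝ) + γ ^ 2 ≠ 0 := by positivity
  field_simp
  ring

/-- **Job VF.** -/
theorem vf : S_VF := by
  intro ι _ D n hyp
  have hinj : Function.Injective fun γ : ℝ => (γ : ℂ) * I := by
    intro x y h
    have h2 := congrArg Complex.im h
    simpa using h2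
  have hs : Summable (fun γ : ℝ => |(nn D n (γ * I) : ℝ)| / (1 + γ ^ 2)) := by
    have h1 : ∀ i, Summable fun γ : ℝ => |(n i : ℝ)| * (((D i).m (γ * I) : ℝ) / (1 + γ ^ 2)) := by
      intro i
      have h2 := ((summ (D i)).comp_injective hinj).mul_left |(n i : ℝ)|
      refine h2.congr fun γ => ?_
      simp
    refine Summable.of_nonneg_of_le (fun γ => by positivity) (fun γ => ?_) (summable_sum fun i (_ : i ∈ Finset.univ) => h1 i)
    unfold nn
    push_cast
    calc |∑ i, (n i : ℝ) * ((D i).m (γ * I) : ℝ)| / (1 + γ ^ 2)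
        ≤ (∑ i, |(n i : ℝ) * ((D i).m (γ * I) : ℝ)|) / (1 + γ ^ 2) := by
          gcongr
          exact Finset.abs_sum_le_sum_abs _ _
      _ = ∑ i, |(n i : ℝ)| * (((D i).m (γ * I) : ℝ) / (1 + γ ^ 2)) := by
          rw [Finset.sum_div]
          refine Finset.sum_congr rfl fun i _ => ?_
          rw [abs_mul, Nat.abs_cast]
          ring
  refine ⟨hs, ?_, ?_, fun u => ?_⟩
  · have h1 := lin D n hyp (fun a => 1 / (1 - a) - 1 / (-1 - a))
      fun i => sum_term (D i) (by norm_num) (by norm_num)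
    simp_rw [← re_log_one, I_one] at h1
    have h2 : ((∑ i, (n i : ℝ) * (2 * (logDeriv (D i).X 1).re) : ℝ) : ℂ) =
        ((∑' γ : ℝ, (nn D n (γ * I) : ℝ) * (2 / (1 + γ ^ 2)) : ℝ) : ℂ) := by
      rw [Complex.ofReal_tsum, Complex.ofReal_sum]
      refine Eq.trans ?_ (h1.trans (tsum_congr fun γ => ?_))
      · refine Finset.sum_congr rfl fun i _ => ?_
        push_cast
        ring
      · push_cast
        ring
    exact_mod_cast h2
  · set c : ℂ → ℂ := fun a => 1 / (1 - a) - 1 / (-1 - a) - 2 * (-1 / (1 - a) ^ 2) with hc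
    have hsc : ∀ i, Summable fun a : ℂ => ((D i).m a : ℂ) * c a := by
      intro i
      refine ((sum_term (D i) (z := 1) (w := -1) (by norm_num) (by norm_num)).sub
        ((sum_sq (D i)).mul_left 2)).congr fun a => ?_
      rw [hc]
      ring
    have h1 := lin D n hyp c hsc
    have hV : ∀ i, (D i).V = (∑' a : ℂ, ((D i).m a : ℂ) * c a).re := by
      intro i
      have h2 : ∑' a : ℂ, ((D i).m a : ℂ) * c a = (∑' a : ℂ, ((D i).m a : ℂ) * (1 / (1 - a) - 1 / (-1 - a))) -
          2 * ∑' a : ℂ, ((D i).m a : ℂ) * (-1 / (1 - a) ^ 2) := by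
        rw [← tsum_mul_left, ← Summable.tsum_sub (sum_term (D i) (by norm_num) (by norm_num))
          ((sum_sq (D i)).mul_left 2)]
        refine tsum_congr fun a => ?_
        rw [hc]
        ring
      rw [h2, ← re_log_one, ← (deriv_log (D i)).deriv, Complex.sub_re, Complex.ofReal_re]
      unfold Dat.V
      rw [Complex.sub_re]
      have h3 : (2 * deriv (logDeriv (D i).X) 1).re = 2 * (deriv (logDeriv (D i).X) 1).re := by
        rw [show (2 : ℂ) = ((2 : ℝ) : ℂ) by norm_num, Complex.re_ofReal_mul]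
      rw [h3]
      ring
    have h4 := congrArg Complex.re h1
    rw [Complex.re_sum] at h4
    have h5 : ∑ i, (n i : ℝ) * (D i).V = ∑ i, ((n i : ℂ) * ∑' a : ℂ, ((D i).m a : ℂ) * c a).re := by
      refine Finset.sum_congr rfl fun i _ => ?_
      rw [hV, ← Complex.ofReal_intCast, Complex.re_ofReal_mul]
    rw [h5, h4]
    have hI : ∀ γ : ℝ, (c (γ * I)).re = (2 / (1 + γ ^ 2)) ^ 2 := by
      intro γ
      have e1 : c (γ * I) = ((2 / (1 + γ ^ 2) : ℝ) : ℂ) + 2 * ((1 : ℂ) / (1 - γ * I) ^ 2) := by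
        rw [← I_one, hc]
        ring
      rw [e1, Complex.add_re, Complex.ofReal_re, I_two]
      ring
    have hsum : Summable fun γ : ℝ => (nn D n (γ * I) : ℂ) * c (γ * I) := by
      have h6 : Summable fun a : ℂ => ∑ i, (n i : ℂ) * (((D i).m a : ℂ) * c a) :=
        summable_sum fun i _ => (hsc i).mul_left _
      refine (h6.comp_injective hinj).congr fun γ => ?_
      simp only [Function.comp_apply]
      unfold nn
      push_cast
      rw [Finset.sum_mul]
      refine Finset.sum_congr rfl fun i _ => ?_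
      ring
    rw [Complex.re_tsum hsum]
    refine tsum_congr fun γ => ?_
    rw [← Complex.ofReal_intCast, Complex.re_ofReal_mul, hI]
  · have h1 := lin D n hyp (fun a => (2 / (1 - a ^ 2)) * cexp (a * u)) fun i => sum_Z (D i) u
    unfold Dat.Z
    refine Eq.trans ?_ (h1.trans (tsum_congr fun γ => ?_))
    · refine Finset.sum_congr rfl fun i _ => ?_
      congr 1
      refine tsum_congr fun a => ?_
      ring
    · have h2 : (2 : ℂ) / (1 - (γ * I) ^ 2) = ((2 / (1 + γ ^ 2) : ℝ) : ℂ) := by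
        push_cast
        rw [mul_pow, I_sq]
        ring
      rw [h2]
      push_cast
      rw [show (I : ℂ) * γ * u = γ * I * u by ring]
      ring

end

end Pool.Agent.H112.NF
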