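import Pool.Graph.R_pool_sql_team_seeded_3997aac3.Q253.NF.T1
import Pool.Graph.R_pool_sql_team_seeded_3997aac3.Q184.NF.LA
import Pool.Graph.R_pool_sql_team_seeded_3997aac3.Q124.NF.LE
import Pool.Graph.R_pool_sql_team_seeded_3997aac3.Q129.NF.Expm
import Pool.Graph.R_pool_sql_team_seeded_3997aac3.Q129.NF.Momt
import Pool.Graph.R_pool_sql_team_seeded_3997aac3.Q166.NF.KT
import Pool.Graph.R_pool_sql_team_seeded_3997aac3.Q182.NF.RAT
import Pool.Graph.R_pool_sql_team_seeded_3997aac3.Q149.NF.IDAT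
import Pool.Graph.R_pool_sql_team_seeded_3997aac3.Q151.NF.Ded
import Pool.Graph.R_pool_sql_team_seeded_3997aac3.Q151.NF.Ordl
import Pool.Graph.R_pool_sql_team_seeded_3997aac3.Q153.NF.MS
import Pool.Graph.R_pool_sql_team_seeded_3997aac3.Q177.NF.MSQ
import Pool.Graph.R_pool_sql_team_seeded_3997aac3.Q190.NF.INDK
import Pool.Graph.R_pool_sql_team_seeded_3997aac3.Q190.NF.ARTD
import Pool.Graph.R_pool_sql_team_seeded_3997aac3.Q190.NF.PERM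
import Pool.Graph.R_pool_sql_team_seeded_3997aac3.Q26.NF.RED
import Pool.Graph.R_pool_sql_team_seeded_3997aac3.Q26.NF.SUMR
import Pool.Graph.R_pool_sql_team_seeded_3997aac3.Q262.NF.CHD
import Pool.Graph.R_pool_sql_team_seeded_3997aac3.Q208.NF.Ent
import Pool.Agent.H112.NF.VF
import Pool.Agent.H734.NF.EF
import Pool.Agent.H289.NF.RAYD

/-!
# Project NF: the jobs put together

Project NF of helper253 (library); PF and VF by helper112, EF by helper734, RAYD by helper289.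
-/

set_option autoImplicit false

namespace Pool.Agent.H112.NF

open MeasureTheory Filter Topology Set Complex NumberField IsDedekindDomain
open Pool.Agent.Q253.NF
open Pool.Agent.Q92.AR (Unramified frob Continues LP artinL fixer cont cont_spec)
open Pool.Agent.Q92.RT (induced)
open Pool.Agent.H541R3.ART (Irr)

theorem ef : S_EF := Pool.Agent.H734.NF.ef pf

theorem la : S_LA := Pool.Agent.Q184.NF.la pf ef

section
variable {ι : Type} [Fintype ι] {D : ι → Dat} {n : ι → ℤ} {F : ℝ → ℂ}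

theorem hyp_iff (hF : Continuous F) (h : ∃ C : ℝ, ∀ u : ℝ, 0 ≤ u → ‖F u - PP D n u‖ ≤ C * Real.exp (-(u / 4))) :
    Hyp D n ↔ ∃ C : ℝ, ∀ᶠ U : ℝ in atTop, (1 / U) * ∫ u in (0 : ℝ)..U, ‖F u‖ ^ 2 ≤ C :=
  (Pool.Agent.Q177.NF.msq pf ef la Pool.Agent.Q153.NF.ms vf ι D n F hF h).1

/-- the consequences of `Hyp` -/
theorem msq (hF : Continuous F) (h : ∃ C : ℝ, ∀ u : ℝ, 0 ≤ u → ‖F u - PP D n u‖ ≤ C * Real.exp (-(u / 4)))
    (hH : Hyp D n) : Summable (fun γ : ℝ => ((nn D n (γ * I) : ℝ) * (2 / (1 + γ ^ 2))) ^ 2) ∧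
    Summable (fun γ : ℝ => (nn D n (γ * I) : ℝ) * ((nn D n (γ * I) : ℝ) - 1) * (2 / (1 + γ ^ 2)) ^ 2) ∧
    Tendsto (fun U : ℝ => (1 / U) * ∫ u in (0 : ℝ)..U, ‖F u‖ ^ 2) atTop
      (𝓝 (∑' γ : ℝ, ((nn D n (γ * I) : ℝ) * (2 / (1 + γ ^ 2))) ^ 2)) ∧
    ∑' γ : ℝ, ((nn D n (γ * I) : ℝ) * (2 / (1 + γ ^ 2))) ^ 2 = ∑ i, (n i : ℝ) * (D i).V +
      ∑' γ : ℝ, (nn D n (γ * I) : ℝ) * ((nn D n (γ * I) : ℝ) - 1) * (2 / (1 + γ ^ 2)) ^ 2 ∧
    (∀ t : ℝ, Tendsto (fun U : ℝ => ((1 / U : ℝ) : ℂ) * ∫ u in (0 : ℝ)..U, -F u * cexp (-(I * t * u))) atTop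
      (𝓝 (((nn D n (t * I) : ℝ) * (2 / (1 + t ^ 2)) : ℝ) : ℂ))) ∧
    ∃ C : ℝ, ∀ u : ℝ, 0 ≤ u →
      ‖-F u - ∑' γ : ℝ, (((nn D n (γ * I) : ℝ) * (2 / (1 + γ ^ 2)) : ℝ) : ℂ) * cexp (I * γ * u)‖ ≤
        C * Real.exp (-(u / 4)) :=
  (Pool.Agent.Q177.NF.msq pf ef la Pool.Agent.Q153.NF.ms vf ι D n F hF h).2 hH

end

theorem ded (E : Type) [Field E] [NumberField E] : ∃ D : Dat, IsDed E D := by
  obtain ⟨D, h1, h2, h3, h4, h5, h6, h7⟩ := Pool.Agent.Q151.NF.t_DED Pool.Agent.Q151.NF.t_LTG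
    Pool.Agent.H289.NF.rayd Pool.Agent.Q151.NF.t_ORDL E
  exact ⟨D, h1, h2, h3, h4, h5, h6, h7⟩

section
variable (K M : Type) [Field K] [NumberField K] [Field M] [NumberField M] [Algebra K M] [IsGalois K M]

theorem artd : ∀ χ ∈ Irr (M ≃ₐ[K] M), ∃ (ι : Type) (_ : Fintype ι) (D : ι → Dat) (n : ι → ℤ),
    (∑ i, n i * ((D i).p : ℤ) = open Classical in if ∀ g, χ g = 1 then 1 else 0) ∧
    (∃ C : ℝ, ∀ u : ℝ, 0 ≤ u → ‖ks {v : HeightOneSpectrum (𝓞 K) | Unramified M v}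
      (fun v n => χ (frob M v ^ (n + 1))) u - ∑ i, (n i : ℂ) * (D i).E u‖ ≤ C * Real.exp (-(u / 4))) ∧
    (∀ f : ℂ → ℂ, Continues f (artinL M χ) → ∀ s : ℂ, 0 < s.re →
      meromorphicOrderAt f s =
        ((nn D n (s - 1 / 2) - (if s = 1 then ∑ i, n i * ((D i).p : ℤ) else 0) : ℤ) : WithTop ℤ)) :=
  Pool.Agent.Q190.NF.artd Pool.Agent.Q151.NF.t_LTG Pool.Agent.H289.NF.rayd
    Pool.Agent.Q151.NF.t_ORDL Pool.Agent.Q26.NF.red Pool.Agent.Q262.NF.chd Pool.Agent.Q190.NF.indk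
    Pool.Agent.Q149.NF.idat K M

end

end Pool.Agent.H112.NF
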