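import Pool.Agent.H112.NF.Li

/-!
# Project NF: exponential means and moments for the sum of all Artin L-functions of an extension
-/

set_option autoImplicit false
set_option linter.unusedSectionVars false

namespace Pool.Agent.H112.NF

open MeasureTheory Filter Topology Set Complex NumberField IsDedekindDomain
open Pool.Agent.Q253.NF
open Pool.Agent.Q253.LM (NoRel IdxM)
open Pool.Agent.Q92.AR (Unramified frob Continues LP artinL fixer cont cont_spec exists_continues)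
open Pool.Agent.Q92.RT (induced)
open Pool.Agent.H541R3.ART (Irr irrF mem_irrF)

section
variable {K M : Type} [Field K] [NumberField K] [Field M] [NumberField M] [Algebra K M] [IsGalois K M]

/-- the exponential mean -/
theorem li_main (hG : ∀ χ ∈ Irr (M ≃ₐ[K] M), GRH χ) (h0 : ∀ γ, 0 ≤ NN K M γ)
    {r : Subgroup (M ≃ₐ[K] M) → ℚ} (hr : Rel r) {lam : ℝ} (hl : 0 < lam) (hl' : lam ≤ 1 / 8)
    {m : ℕ} (hm : m ≤ (NN K M 0).toNat) :
    (((NN K M 0).toNat = m ∧ LinearIndependent ℚ (fun i : IdxM (fun γ => (NN K M γ).toNat) => (i.1 : ℝ))) ↔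
      ∀ ε : ℝ, 0 < ε → ∀ᶠ U : ℝ in atTop,
        (1 / U) * ∫ u in (0 : ℝ)..U, Real.exp (lam * ff K M u) ≤ RR (KK r) lam * gg lam ^ m + ε) ∧
    (((NN K M 0).toNat = m ∧ LinearIndependent ℚ (fun i : IdxM (fun γ => (NN K M γ).toNat) => (i.1 : ℝ))) ↔
      Tendsto (fun U : ℝ => (1 / U) * ∫ u in (0 : ℝ)..U, Real.exp (lam * ff K M u)) atTop
        (𝓝 (RR (KK r) lam * gg lam ^ m))) := by
  obtain ⟨h1, h2, -⟩ := Pool.Agent.Q129.NF.t_EXPM (fun γ => (NN K M γ).toNat) (ff K M) (KK r) lam m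
    (apf hG h0) (kt hG h0 hr) hl hl' hm
  exact ⟨h1, h2⟩

/-- the two forms of linear independence -/
theorem li_two (h : ∀ χ ∈ irrF (M ≃ₐ[K] M), ∀ γ : ℝ, 0 ≤ ordA χ (1 / 2 + γ * I)) :
    LinearIndependent ℚ (fun x : (Σ χ : {χ // χ ∈ irrF (M ≃ₐ[K] M)}, Σ γ : {γ : ℝ // 0 < γ},
      Fin (ordA χ.1 (1 / 2 + (γ : ℝ) * I)).toNat) => (x.2.1 : ℝ)) ↔
    LinearIndependent ℚ (fun i : IdxM (fun γ => (NN K M γ).toNat) => (i.1 : ℝ)) := by
  have h1 : (fun γ => (NN K M γ).toNat) =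
      fun γ : ℝ => ∑ χ : {χ // χ ∈ irrF (M ≃ₐ[K] M)}, (ordA χ.1 (1 / 2 + (γ : ℝ) * I)).toNat := by
    funext γ
    have h2 : ((∑ χ : {χ // χ ∈ irrF (M ≃ₐ[K] M)}, (ordA χ.1 (1 / 2 + (γ : ℝ) * I)).toNat : ℕ) : ℤ) = NN K M γ := by
      push_cast
      unfold NN
      rw [← Finset.sum_coe_sort (irrF (M ≃ₐ[K] M)) fun χ => ordA χ (1 / 2 + γ * I)]
      exact Finset.sum_congr rfl fun χ _ => Int.toNat_of_nonneg (h χ.1 χ.2 γ)
    rw [← h2, Int.toNat_natCast]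
  rw [h1]
  exact li_iff fun (χ : {χ // χ ∈ irrF (M ≃ₐ[K] M)}) γ => (ordA χ.1 (1 / 2 + (γ : ℝ) * I)).toNat

theorem NN_nonneg (h : ∀ χ ∈ irrF (M ≃ₐ[K] M), ∀ γ : ℝ, 0 ≤ ordA χ (1 / 2 + γ * I)) (γ : ℝ) : 0 ≤ NN K M γ :=
  Finset.sum_nonneg fun χ hχ => h χ hχ γ

theorem ord_le_NN (h : ∀ χ ∈ irrF (M ≃ₐ[K] M), ∀ γ : ℝ, 0 ≤ ordA χ (1 / 2 + γ * I)) {χ : (M ≃ₐ[K] M) → ℂ}
    (hχ : χ ∈ irrF (M ≃ₐ[K] M)) (γ : ℝ) : ordA χ (1 / 2 + γ * I) ≤ NN K M γ :=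
  Finset.single_le_sum (f := fun χ => ordA χ (1 / 2 + γ * I)) (fun χ hχ => h χ hχ γ) hχ

/-- linear independence gives simple zeros off the center -/
theorem le_one_of_LI (h : ∀ χ ∈ irrF (M ≃ₐ[K] M), ∀ γ : ℝ, 0 ≤ ordA χ (1 / 2 + γ * I))
    (hL : LinearIndependent ℚ (fun i : IdxM (fun γ => (NN K M γ).toNat) => (i.1 : ℝ)))
    {γ : ℝ} (hγ : γ ≠ 0) : NN K M γ ≤ 1 := by
  rcases lt_or_gt_of_ne hγ with h1 | h1
  · rw [← NN_even]
    have h2 := le_one_of_li hL (γ := -γ) (by linarith)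
    have h3 := NN_nonneg h (-γ)
    omega
  · have h2 := le_one_of_li hL h1
    have h3 := NN_nonneg h γ
    omega

end

end Pool.Agent.H112.NF
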