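import Pool.Agent.H112.NF.Art

/-!
# Project NF: Artin L-functions and the Dedekind zeta functions of the intermediate fields
-/

set_option autoImplicit false
set_option linter.unusedSectionVars false

namespace Pool.Agent.H112.NF

open MeasureTheory Filter Topology Set Complex NumberField IsDedekindDomain
open Pool.Agent.Q253.NF
open Pool.Agent.Q92.AR (Unramified frob Continues LP artinL fixer cont cont_spec exists_continues)
open Pool.Agent.Q92.RT (induced induced_conj induced_pair class_expand)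
open Pool.Agent.H541R3.ART (Irr irrF mem_irrF exists_mult)
open scoped ComplexConjugate

section
variable {K M : Type} [Field K] [NumberField K] [Field M] [NumberField M] [Algebra K M] [IsGalois K M]

theorem one_irr : (fun _ => 1 : (M ≃ₐ[K] M) → ℂ) ∈ Irr (M ≃ₐ[K] M) := by
  have h := Pool.Agent.Q7.SZ.lin_irr (1 : (M ≃ₐ[K] M) →* ℂˣ)
  simpa using h

theorem coe_ordA {χ : (M ≃ₐ[K] M) → ℂ} (hχ : χ ∈ Irr (M ≃ₐ[K] M)) (s : ℂ) :
    meromorphicOrderAt (cont (artinL M χ)) s = (ordA χ s : WithTop ℤ) := by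
  unfold ordA
  rw [WithTop.coe_untop₀_of_ne_top]
  exact (cont_spec (exists_cont hχ)).order_ne_top (fun s _ => Pool.Agent.Q92.AR.artinL_ne_zero χ s) s

theorem exists_cont_ind (H : Subgroup (M ≃ₐ[K] M)) :
    ∃ f, Continues f (artinL M (induced H (1 : H →* ℂˣ))) :=
  exists_continues (fun _ hχ => exists_cont hχ) H 1

/-- the order of the L-function of the permutation character -/
theorem ord_ind (H : Subgroup (M ≃ₐ[K] M)) {D : Dat} (hD : IsDed (IntermediateField.fixedField H) D)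
    {s : ℂ} (hs : 0 < s.re) : meromorphicOrderAt (cont (artinL M (induced H (1 : H →* ℂˣ)))) s =
      (((D.m (s - 1 / 2) : ℤ) - (if s = 1 then 1 else 0) : ℤ) : WithTop ℤ) := by
  obtain ⟨g, hg⟩ := hD.cont
  rw [Pool.Agent.Q190.NF.perm K M H _ g (cont_spec (exists_cont_ind H)) hg s hs]
  exact hD.ord g hg s hs

/-- the relation between the orders of the zeta function of a field and of the Artin L-functions -/
theorem rel_perm (H : Subgroup (M ≃ₐ[K] M)) {D : Dat} (hD : IsDed (IntermediateField.fixedField H) D) :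
    ∃ a : ((M ≃ₐ[K] M) → ℂ) → ℕ, (∀ χ ∈ Irr (M ≃ₐ[K] M), (∀ g, χ g = 1) → a χ = 1) ∧
    ∀ s : ℂ, 0 < s.re → (D.m (s - 1 / 2) : ℤ) - (if s = 1 then 1 else 0) =
      ∑ χ ∈ irrF (M ≃ₐ[K] M), (a χ : ℤ) * ordA χ s := by
  classical
  have : Fintype (M ≃ₐ[K] M) := Fintype.ofFinite _
  choose! m hm using fun χ (hχ : χ ∈ Irr (M ≃ₐ[K] M)) => exists_mult hχ H (1 : H →* ℂˣ)
  have hexp : ∀ g, induced H (1 : H →* ℂˣ) g = ∑ χ ∈ irrF (M ≃ₐ[K] M), (m χ : ℂ) * χ g :=
    class_expand (m := fun χ => (m χ : ℂ)) (fun g x => induced_conj H _ g x)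
      fun χ hχ => induced_pair H _ (fun g x => Pool.Agent.H541R3.ART.Irr.conj hχ g x) (hm χ hχ)
  refine ⟨m, fun χ hχ h1 => ?_, fun s hs => ?_⟩
  · have h2 := hm χ hχ
    have h3 : (Nat.card H : ℂ) ≠ 0 := by exact_mod_cast Nat.card_pos.ne'
    have h4 : ∑ᶠ h : H, χ h * ((((1 : H →* ℂˣ) h)⁻¹ : ℂˣ) : ℂ) = Nat.card H := by
      have : Fintype H := Fintype.ofFinite H
      rw [finsum_eq_sum_of_fintype]
      simp [h1]
    rw [h4] at h2
    have h5 : (m χ : ℂ) = 1 := by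
      have h6 : ((m χ : ℂ) - 1) * (Nat.card H : ℂ) = 0 := by linear_combination -h2
      rcases mul_eq_zero.1 h6 with h | h
      · linear_combination h
      · exact absurd h h3
    exact_mod_cast h5
  · have h1 := Pool.Agent.Q26.NF.sumr K M (Option {χ // χ ∈ irrF (M ≃ₐ[K] M)})
      (fun i => i.elim (induced H (1 : H →* ℂˣ)) fun χ => χ.1)
      (fun i => i.elim (-1) fun χ => (m χ.1 : ℚ))
      (fun i => i.elim (cont (artinL M (induced H (1 : H →* ℂˣ)))) fun χ => cont (artinL M χ.1))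
      (fun i => i.elim ((D.m (s - 1 / 2) : ℤ) - (if s = 1 then 1 else 0)) fun χ => ordA χ.1 s) s
      ?_ ?_ ?_
    · rw [Fintype.sum_option] at h1
      simp only [Option.elim_none, Option.elim_some] at h1
      have h2 : ∑ χ : {χ // χ ∈ irrF (M ≃ₐ[K] M)}, (m χ.1 : ℚ) * (ordA χ.1 s : ℚ) =
          ∑ χ ∈ irrF (M ≃ₐ[K] M), (m χ : ℚ) * (ordA χ s : ℚ) :=
        Finset.sum_coe_sort (irrF (M ≃ₐ[K] M)) fun χ => (m χ : ℚ) * (ordA χ s : ℚ)
      rw [h2] at h1
      have h3 : (((D.m (s - 1 / 2) : ℤ) - (if s = 1 then 1 else 0) : ℤ) : ℚ) =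
          ((∑ χ ∈ irrF (M ≃ₐ[K] M), (m χ : ℤ) * ordA χ s : ℤ) : ℚ) := by
        push_cast
        push_cast at h1
        linear_combination -h1
      exact_mod_cast h3
    · intro g
      rw [Fintype.sum_option]
      simp only [Option.elim_none, Option.elim_some]
      have h2 : ∑ χ : {χ // χ ∈ irrF (M ≃ₐ[K] M)}, ((m χ.1 : ℚ) : ℂ) * χ.1 g =
          ∑ χ ∈ irrF (M ≃ₐ[K] M), ((m χ : ℚ) : ℂ) * χ g :=
        Finset.sum_coe_sort (irrF (M ≃ₐ[K] M)) fun χ => ((m χ : ℚ) : ℂ) * χ g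
      rw [h2, hexp g]
      push_cast
      ring
    · rintro (_ | χ)
      · exact cont_spec (exists_cont_ind H)
      · exact cont_spec (exists_cont (mem_irrF.1 χ.2))
    · rintro (_ | χ)
      · exact ord_ind H hD hs
      · exact coe_ordA (mem_irrF.1 χ.2) s

/-- the Riemann hypothesis for all Artin L-functions gives the one for the zeta functions of the fields -/
theorem hyp_field (hG : ∀ χ ∈ Irr (M ≃ₐ[K] M), GRH χ) (H : Subgroup (M ≃ₐ[K] M)) {D : Dat}
    (hD : IsDed (IntermediateField.fixedField H) D) {a : ℂ} (ha : a.re ≠ 0) : D.m a = 0 := by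
  classical
  obtain ⟨m, hm1, hm⟩ := rel_perm H hD
  have key : ∀ a : ℂ, 0 < a.re → D.m a = 0 := by
    intro a ha
    have hs : 1 / 2 < (a + 1 / 2).re := by
      rw [add_re]
      norm_num
      exact ha
    have h1 := hm (a + 1 / 2) (by linarith)
    rw [add_sub_cancel_right] at h1
    by_cases h2 : a + 1 / 2 = 1
    · rw [if_pos h2] at h1
      -- the trivial character
      have htriv : (fun _ => 1 : (M ≃ₐ[K] M) → ℂ) ∈ irrF (M ≃ₐ[K] M) :=
        mem_irrF.2 one_irr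
      rw [Finset.sum_eq_single_of_mem _ htriv] at h1
      · rw [hm1 _ (mem_irrF.1 htriv) fun _ => rfl, hG _ (mem_irrF.1 htriv) _ hs,
          if_pos ⟨h2, fun _ => rfl⟩] at h1
        have : (D.m a : ℤ) = 0 := by
          push_cast at h1
          linarith
        exact_mod_cast this
      · intro χ hχ hne
        rw [hG χ (mem_irrF.1 hχ) _ hs, if_neg, mul_zero]
        rintro ⟨-, h4⟩
        exact hne (funext h4)
    · rw [if_neg h2, sub_zero] at h1
      have h3 : ∑ χ ∈ irrF (M ≃ₐ[K] M), (m χ : ℤ) * ordA χ (a + 1 / 2) = 0 := by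
        refine Finset.sum_eq_zero fun χ hχ => ?_
        rw [hG χ (mem_irrF.1 hχ) _ hs, if_neg (fun h => h2 h.1), mul_zero]
      rw [h3] at h1
      exact_mod_cast h1
  rcases lt_or_gt_of_ne ha with h | h
  · rw [← hD.m_neg]
    exact key _ (by simpa using h)
  · exact key a h

/-! ### Rational relations with permutation characters -/

/-- the sum of the irreducible characters is a combination of permutation characters -/
def Rel (r : Subgroup (M ≃ₐ[K] M) → ℚ) : Prop :=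
  ∀ g, ∑ χ ∈ irrF (M ≃ₐ[K] M), χ g = ∑ᶠ H : Subgroup (M ≃ₐ[K] M), (r H : ℂ) * induced H (1 : H →* ℂˣ) g

variable (K M) in
theorem exists_rel : ∃ r : Subgroup (M ≃ₐ[K] M) → ℚ, Rel r := by
  obtain ⟨r, hr⟩ := Pool.Agent.Q182.NF.rat (M ≃ₐ[K] M)
  refine ⟨r, fun g => ?_⟩
  rw [← hr g, finsum_mem_eq_finite_toFinset_sum _ (Pool.Agent.H541R3.ART.irr_finite (G := M ≃ₐ[K] M))]
  rfl

theorem rel_rat {r : Subgroup (M ≃ₐ[K] M) → ℚ} (hr : Rel r) [Fintype (Subgroup (M ≃ₐ[K] M))]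
    {D : Subgroup (M ≃ₐ[K] M) → Dat} (hD : ∀ H, IsDed (IntermediateField.fixedField H) (D H))
    {s : ℂ} (hs : 0 < s.re) : ∑ χ ∈ irrF (M ≃ₐ[K] M), (ordA χ s : ℚ) =
      ∑ H, r H * (((D H).m (s - 1 / 2) : ℚ) - (if s = 1 then 1 else 0)) := by
  classical
  have h1 := Pool.Agent.Q26.NF.sumr K M ({χ // χ ∈ irrF (M ≃ₐ[K] M)} ⊕ Subgroup (M ≃ₐ[K] M))
    (fun i => i.elim (fun χ => χ.1) fun H => induced H (1 : H →* ℂˣ))
    (fun i => i.elim (fun _ => 1) fun H => -r H)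
    (fun i => i.elim (fun χ => cont (artinL M χ.1)) fun H => cont (artinL M (induced H (1 : H →* ℂˣ))))
    (fun i => i.elim (fun χ => ordA χ.1 s) fun H => ((D H).m (s - 1 / 2) : ℤ) - (if s = 1 then 1 else 0)) s
    ?_ ?_ ?_
  · rw [Fintype.sum_sum_type] at h1
    simp only [Sum.elim_inl, Sum.elim_inr, one_mul] at h1
    have h2 : ∑ χ : {χ // χ ∈ irrF (M ≃ₐ[K] M)}, (ordA χ.1 s : ℚ) =
        ∑ χ ∈ irrF (M ≃ₐ[K] M), (ordA χ s : ℚ) :=
      Finset.sum_coe_sort (irrF (M ≃ₐ[K] M)) fun χ => (ordA χ s : ℚ)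
    rw [h2] at h1
    push_cast at h1
    simp only [neg_mul, Finset.sum_neg_distrib] at h1
    linear_combination h1
  · intro g
    rw [Fintype.sum_sum_type]
    simp only [Sum.elim_inl, Sum.elim_inr, Rat.cast_one, one_mul]
    have h2 : ∑ χ : {χ // χ ∈ irrF (M ≃ₐ[K] M)}, χ.1 g = ∑ χ ∈ irrF (M ≃ₐ[K] M), χ g :=
      Finset.sum_coe_sort (irrF (M ≃ₐ[K] M)) fun χ => χ g
    rw [h2, hr g, finsum_eq_sum_of_fintype]
    push_cast
    simp only [neg_mul, Finset.sum_neg_distrib]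
    ring
  · rintro (χ | H)
    · exact cont_spec (exists_cont (mem_irrF.1 χ.2))
    · exact cont_spec (exists_cont_ind H)
  · rintro (χ | H)
    · exact coe_ordA (mem_irrF.1 χ.2) s
    · exact ord_ind H (hD H) hs

theorem rel_line {r : Subgroup (M ≃ₐ[K] M) → ℚ} (hr : Rel r) [Fintype (Subgroup (M ≃ₐ[K] M))]
    {D : Subgroup (M ≃ₐ[K] M) → Dat} (hD : ∀ H, IsDed (IntermediateField.fixedField H) (D H))
    (γ : ℝ) : ∑ χ ∈ irrF (M ≃ₐ[K] M), (ordA χ (1 / 2 + γ * I) : ℚ) =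
      ∑ H, r H * ((D H).m (γ * I) : ℚ) := by
  have h1 : (1 / 2 + (γ : ℂ) * I) ≠ 1 := by
    intro h
    have h2 := congrArg Complex.re h
    simp at h2
  rw [rel_rat hr hD (by simp)]
  refine Finset.sum_congr rfl fun H _ => ?_
  rw [if_neg h1, sub_zero]
  congr 3
  ring

variable (K M) in
theorem exists_ded : ∃ D : Subgroup (M ≃ₐ[K] M) → Dat, ∀ H, IsDed (IntermediateField.fixedField H) (D H) :=
  ⟨fun H => (ded (IntermediateField.fixedField H)).choose, fun H => (ded (IntermediateField.fixedField H)).choose_spec⟩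

/-- the constant of the character, for one choice of the data -/
noncomputable def VA (χ : (M ≃ₐ[K] M) → ℂ) : ℝ :=
  open Classical in if h : χ ∈ Irr (M ≃ₐ[K] M) then (exists_pk K M h).some.V else 0

theorem VA_eq {χ : (M ≃ₐ[K] M) → ℂ} (hχ : χ ∈ Irr (M ≃ₐ[K] M)) : VA χ = (exists_pk K M hχ).some.V := by
  unfold VA
  rw [dif_pos hχ]

/-- the constant of the extension -/
noncomputable def VG (r : Subgroup (M ≃ₐ[K] M) → ℚ) : ℝ :=
  ∑ᶠ H : Subgroup (M ≃ₐ[K] M), (r H : ℝ) * VF (IntermediateField.fixedField H)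

/-- the data of one L-function without poles -/
theorem ded_vf {E : Type} [Field E] [NumberField E] {D : Dat} (hD : IsDed E D) (hH : ∀ a : ℂ, a.re ≠ 0 → D.m a = 0) :
    Summable (fun γ : ℝ => (D.m (γ * I) : ℝ) * (2 / (1 + γ ^ 2)) ^ 2) ∧
    VF E = ∑' γ : ℝ, (D.m (γ * I) : ℝ) * (2 / (1 + γ ^ 2)) ^ 2 := by
  have hnn : ∀ a, nn (fun _ : Unit => D) (fun _ => 1) a = D.m a := fun a => by
    unfold nn
    simp
  obtain ⟨h1, -, h3, -⟩ := vf Unit (fun _ => D) (fun _ => 1) (fun a ha => by rw [hnn, hH a ha]; rfl)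
  simp only [hnn, Finset.univ_unique, Finset.sum_singleton, Int.cast_one, one_mul, Int.cast_natCast] at h1 h3
  rw [ded_V hD] at h3
  refine ⟨?_, h3⟩
  refine Summable.of_norm_bounded (h1.mul_left 4) fun γ => ?_
  rw [norm_mul, Real.norm_eq_abs, Real.norm_of_nonneg (by positivity), div_pow, ← mul_div_assoc, ← mul_div_assoc]
  have h4 : 0 < 1 + γ ^ 2 := by positivity
  rw [div_le_div_iff₀ (by positivity) h4]
  have h5 : 1 + γ ^ 2 ≤ (1 + γ ^ 2) ^ 2 := by nlinarith [sq_nonneg γ]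
  have h6 : 0 ≤ |(D.m (γ * I) : ℝ)| := abs_nonneg _
  nlinarith [mul_le_mul_of_nonneg_left h5 h6]

theorem sum_VA (hG : ∀ χ ∈ Irr (M ≃ₐ[K] M), GRH χ) {r : Subgroup (M ≃ₐ[K] M) → ℚ} (hr : Rel r) :
    ∑ χ ∈ irrF (M ≃ₐ[K] M), VA χ = VG r := by
  classical
  letI : Fintype (Subgroup (M ≃ₐ[K] M)) := Fintype.ofFinite _
  obtain ⟨D, hD⟩ := exists_ded K M
  have h1 : ∀ χ ∈ irrF (M ≃ₐ[K] M), VA χ = ∑' γ : ℝ, (ordA χ (1 / 2 + γ * I) : ℝ) * (2 / (1 + γ ^ 2)) ^ 2 := by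
    intro χ hχ
    rw [VA_eq (mem_irrF.1 hχ)]
    exact (art_V (mem_irrF.1 hχ) _ (hG χ (mem_irrF.1 hχ))).2.2
  rw [Finset.sum_congr rfl h1, ← Summable.tsum_finsetSum fun χ hχ =>
    (art_V (mem_irrF.1 hχ) (exists_pk K M (mem_irrF.1 hχ)).some (hG χ (mem_irrF.1 hχ))).1]
  unfold VG
  rw [finsum_eq_sum_of_fintype]
  have h2 : ∀ H : Subgroup (M ≃ₐ[K] M), (r H : ℝ) * VF (IntermediateField.fixedField H) =
      ∑' γ : ℝ, (r H : ℝ) * (((D H).m (γ * I) : ℝ) * (2 / (1 + γ ^ 2)) ^ 2) := by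
    intro H
    rw [(ded_vf (hD H) fun a ha => hyp_field hG H (hD H) ha).2, tsum_mul_left]
  rw [Finset.sum_congr rfl fun H _ => h2 H, ← Summable.tsum_finsetSum fun H _ =>
    ((ded_vf (hD H) fun a ha => hyp_field hG H (hD H) ha).1).mul_left _]
  refine tsum_congr fun γ => ?_
  have h3 := rel_line hr hD γ
  have h4 : ∑ χ ∈ irrF (M ≃ₐ[K] M), (ordA χ (1 / 2 + γ * I) : ℝ) =
      ∑ H, (r H : ℝ) * ((D H).m (γ * I) : ℝ) := by
    have h5 := congrArg (fun q : ℚ => (q : ℝ)) h3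
    push_cast at h5
    exact h5
  rw [← Finset.sum_mul, h4, Finset.sum_mul]
  refine Finset.sum_congr rfl fun H _ => ?_
  ring

end

end Pool.Agent.H112.NF
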