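import Pool.Agent.H112.NF.Nice

/-!
# Project NF: the sum of all Artin L-functions of an extension as an almost periodic function
-/

set_option autoImplicit false
set_option linter.unusedSectionVars false

namespace Pool.Agent.H112.NF

open MeasureTheory Filter Topology Set Complex NumberField IsDedekindDomain
open Pool.Agent.Q253.NF
open Pool.Agent.Q253.LM (NoRel IdxM)
open Pool.Agent.Q92.AR (Unramified frob Continues LP artinL fixer cont cont_spec exists_continues)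
open Pool.Agent.Q92.RT (induced)
open Pool.Agent.H541R3.ART (Irr irrF mem_irrF)
open scoped ComplexConjugate

section
variable {K M : Type} [Field K] [NumberField K] [Field M] [NumberField M] [Algebra K M] [IsGalois K M]

variable (K M) in
/-- the total order at `1/2 + iγ` -/
noncomputable def NN (γ : ℝ) : ℤ := ∑ χ ∈ irrF (M ≃ₐ[K] M), ordA χ (1 / 2 + γ * I)

variable (K M) in
/-- the prime sum of all L-functions -/
noncomputable def ff (u : ℝ) : ℝ := -(∑ χ ∈ irrF (M ≃ₐ[K] M), SS χ u).re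

/-- the circle function -/
noncomputable def KK (r : Subgroup (M ≃ₐ[K] M) → ℚ) (t : ℂ) : ℂ :=
  (1 - t) ^ (-(1 / 2) : ℂ) * ∑ᶠ H : Subgroup (M ≃ₐ[K] M),
    (r H : ℂ) * logDeriv (xiF (IntermediateField.fixedField H)) (1 / 2 + (1 - t) ^ (1 / 2 : ℂ))

theorem NN_eq {r : Subgroup (M ≃ₐ[K] M) → ℚ} (hr : Rel r) [Fintype (Subgroup (M ≃ₐ[K] M))]
    {D : Subgroup (M ≃ₐ[K] M) → Dat} (hD : ∀ H, IsDed (IntermediateField.fixedField H) (D H))
    (γ : ℝ) : (NN K M γ : ℚ) = ∑ H, r H * ((D H).m (γ * I) : ℚ) := by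
  rw [← rel_line hr hD γ]
  unfold NN
  push_cast
  rfl

theorem NN_even (γ : ℝ) : NN K M (-γ) = NN K M γ := by
  classical
  letI : Fintype (Subgroup (M ≃ₐ[K] M)) := Fintype.ofFinite _
  obtain ⟨r, hr⟩ := exists_rel K M
  obtain ⟨D, hD⟩ := exists_ded K M
  have h1 : (NN K M (-γ) : ℚ) = NN K M γ := by
    rw [NN_eq hr hD, NN_eq hr hD]
    refine Finset.sum_congr rfl fun H _ => ?_
    rw [show ((-γ : ℝ) : ℂ) * I = -((γ : ℂ) * I) by push_cast; ring, (hD H).m_neg]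
  exact_mod_cast h1

theorem NN_sum (hG : ∀ χ ∈ Irr (M ≃ₐ[K] M), GRH χ) :
    Summable fun γ : ℝ => |(NN K M γ : ℝ)| / (1 + γ ^ 2) := by
  have h1 : Summable fun γ : ℝ => ∑ χ ∈ irrF (M ≃ₐ[K] M), |(ordA χ (1 / 2 + γ * I) : ℝ)| / (1 + γ ^ 2) :=
    summable_sum fun χ hχ => (art_V (mem_irrF.1 hχ) (exists_pk K M (mem_irrF.1 hχ)).some
      (hG χ (mem_irrF.1 hχ))).2.1
  refine Summable.of_nonneg_of_le (fun γ => by positivity) (fun γ => ?_) h1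
  rw [← Finset.sum_div]
  gcongr
  unfold NN
  push_cast
  exact Finset.abs_sum_le_sum_abs _ _

theorem exp_one (hG : ∀ χ ∈ Irr (M ≃ₐ[K] M), GRH χ) {χ : (M ≃ₐ[K] M) → ℂ} (hχ : χ ∈ Irr (M ≃ₐ[K] M)) (u : ℝ) :
    Summable fun γ : ℝ => (((ordA χ (1 / 2 + γ * I) : ℝ) * (2 / (1 + γ ^ 2)) : ℝ) : ℂ) * cexp (I * γ * u) := by
  refine Summable.of_norm_bounded ((art_V hχ (exists_pk K M hχ).some (hG χ hχ)).2.1.mul_left 2) fun γ => ?_
  have h1 : ‖cexp (I * γ * u)‖ = 1 := by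
    rw [show I * (γ : ℂ) * u = ((γ * u : ℝ) : ℂ) * I by push_cast; ring]
    exact Complex.norm_exp_ofReal_mul_I _
  rw [norm_mul, h1, mul_one, Complex.norm_real, norm_mul, Real.norm_eq_abs,
    Real.norm_of_nonneg (show (0 : ℝ) ≤ 2 / (1 + γ ^ 2) by positivity)]
  exact le_of_eq (by ring)

/-- the sum over the zeros of all L-functions -/
noncomputable def ZZ (K M : Type) [Field K] [NumberField K] [Field M] [NumberField M] [Algebra K M]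
    [IsGalois K M] (u : ℝ) : ℂ :=
  ∑' γ : ℝ, (((NN K M γ : ℝ) * (2 / (1 + γ ^ 2)) : ℝ) : ℂ) * cexp (I * γ * u)

theorem ZZ_real (u : ℝ) : conj (ZZ K M u) = ZZ K M u := by
  unfold ZZ
  rw [Complex.conj_tsum, ← (Equiv.neg ℝ).tsum_eq]
  refine tsum_congr fun γ => ?_
  simp only [Equiv.neg_apply]
  rw [map_mul, Complex.conj_ofReal, NN_even, neg_sq, ← Complex.exp_conj]
  congr 2
  simp only [map_mul, Complex.conj_I, Complex.ofReal_neg, map_neg, Complex.conj_ofReal]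
  ring

theorem ff_near (hG : ∀ χ ∈ Irr (M ≃ₐ[K] M), GRH χ) :
    ∃ C : ℝ, ∀ u : ℝ, 0 ≤ u → ‖(ff K M u : ℂ) - ZZ K M u‖ ≤ C * Real.exp (-(u / 4)) := by
  choose! C hC using fun (χ : (M ≃ₐ[K] M) → ℂ) (hχ : χ ∈ irrF (M ≃ₐ[K] M)) =>
    (art_msq (mem_irrF.1 hχ) (exists_pk K M (mem_irrF.1 hχ)).some (hG χ (mem_irrF.1 hχ))).2.2.2.2
  refine ⟨∑ χ ∈ irrF (M ≃ₐ[K] M), C χ, fun u hu => ?_⟩
  have h1 : ‖-(∑ χ ∈ irrF (M ≃ₐ[K] M), SS χ u) - ZZ K M u‖ ≤ (∑ χ ∈ irrF (M ≃ₐ[K] M), C χ) * Real.exp (-(u / 4)) := by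
    have h2 : ZZ K M u = ∑ χ ∈ irrF (M ≃ₐ[K] M), ∑' γ : ℝ,
        (((ordA χ (1 / 2 + γ * I) : ℝ) * (2 / (1 + γ ^ 2)) : ℝ) : ℂ) * cexp (I * γ * u) := by
      rw [← Summable.tsum_finsetSum fun χ hχ => exp_one hG (mem_irrF.1 hχ) u]
      unfold ZZ
      refine tsum_congr fun γ => ?_
      unfold NN
      push_cast
      simp_rw [Finset.sum_mul]
    rw [h2, ← Finset.sum_neg_distrib, ← Finset.sum_sub_distrib, Finset.sum_mul]
    exact (norm_sum_le _ _).trans (Finset.sum_le_sum fun χ hχ => hC χ hχ u hu)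
  refine le_trans ?_ h1
  have h3 : (ff K M u : ℂ) - ZZ K M u = (((-(∑ χ ∈ irrF (M ≃ₐ[K] M), SS χ u) - ZZ K M u).re : ℝ) : ℂ) := by
    have h4 : ((ZZ K M u).re : ℂ) = ZZ K M u := Complex.conj_eq_iff_re.1 (ZZ_real u)
    rw [Complex.sub_re, Complex.ofReal_sub, h4]
    unfold ff
    rw [Complex.neg_re]
  rw [h3, Complex.norm_real, Real.norm_eq_abs]
  exact Complex.abs_re_le_norm _

theorem ff_cont : Continuous (ff K M) := by
  unfold ff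
  exact (Complex.continuous_re.comp (continuous_finsetSum _ fun χ _ => SS_cont χ)).neg

theorem apf (hG : ∀ χ ∈ Irr (M ≃ₐ[K] M), GRH χ) (h0 : ∀ γ, 0 ≤ NN K M γ) :
    APF (fun γ => (NN K M γ).toNat) (ff K M) := by
  have hc : ∀ γ, (((NN K M γ).toNat : ℕ) : ℝ) = (NN K M γ : ℝ) := fun γ => by
    exact_mod_cast congrArg (fun n : ℤ => (n : ℝ)) (Int.toNat_of_nonneg (h0 γ))
  refine ⟨fun γ => by rw [NN_even], ?_, ff_cont, ?_⟩
  · refine (NN_sum hG).congr fun γ => ?_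
    simp only [hc]
    rw [abs_of_nonneg (by exact_mod_cast h0 γ)]
  · simp only [hc]
    exact ff_near hG

theorem kt (hG : ∀ χ ∈ Irr (M ≃ₐ[K] M), GRH χ) (h0 : ∀ γ, 0 ≤ NN K M γ)
    {r : Subgroup (M ≃ₐ[K] M) → ℚ} (hr : Rel r) (t : ℂ) (ht : ‖t‖ = 1 / 2) :
    KK r t = ∑' γ : ℝ, (((NN K M γ).toNat : ℕ) : ℂ) / (1 + (γ : ℂ) ^ 2 - t) := by
  classical
  letI : Fintype (Subgroup (M ≃ₐ[K] M)) := Fintype.ofFinite _
  obtain ⟨D, hD⟩ := exists_ded K M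
  obtain ⟨h1, h2⟩ := Pool.Agent.Q166.NF.kt pf (Subgroup (M ≃ₐ[K] M)) D r (fun γ => (NN K M γ).toNat)
    (fun H => (hD H).ev) (fun H a ha => hyp_field hG H (hD H) ha) (fun γ => by
      rw [← NN_eq hr hD]
      exact_mod_cast congrArg (fun n : ℤ => (n : ℚ)) (Int.toNat_of_nonneg (h0 γ)).symm) t ht
  rw [← h2]
  unfold KK
  rw [finsum_eq_sum_of_fintype]
  congr 1
  refine Finset.sum_congr rfl fun H _ => ?_
  rw [ded_logDeriv (hD H) h1]

end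

/-! ### The two ways to write the multiset of the zeros -/

/-- exchange of the characters and the ordinates -/
noncomputable def idxE {ι : Type} [Fintype ι] (n : ι → ℝ → ℕ) :
    (Σ i : ι, Σ γ : {γ : ℝ // 0 < γ}, Fin (n i γ)) ≃ IdxM (fun γ => ∑ i, n i γ) :=
  (show (Σ i : ι, Σ γ : {γ : ℝ // 0 < γ}, Fin (n i γ)) ≃ (Σ γ : {γ : ℝ // 0 < γ}, Σ i : ι, Fin (n i γ)) from
    ⟨fun x => ⟨x.2.1, x.1, x.2.2⟩, fun x => ⟨x.2.1, x.1, x.2.2⟩, fun _ => rfl, fun _ => rfl⟩).trans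
    (Equiv.sigmaCongrRight fun γ => Fintype.equivFinOfCardEq (by simp))

theorem li_iff {ι : Type} [Fintype ι] (n : ι → ℝ → ℕ) :
    LinearIndependent ℚ (fun x : (Σ i : ι, Σ γ : {γ : ℝ // 0 < γ}, Fin (n i γ)) => (x.2.1 : ℝ)) ↔
    LinearIndependent ℚ (fun x : IdxM (fun γ => ∑ i, n i γ) => (x.1 : ℝ)) :=
  linearIndependent_equiv (R := ℚ) (idxE n) (f := fun x : IdxM (fun γ => ∑ i, n i γ) => (x.1 : ℝ))

theorem le_one_of_li {N : ℝ → ℕ} (h : LinearIndependent ℚ (fun x : IdxM N => (x.1 : ℝ))) {γ : ℝ} (hγ : 0 < γ) :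
    N γ ≤ 1 := by
  by_contra hcon
  push Not at hcon
  have h1 := h.injective (a₁ := (⟨⟨γ, hγ⟩, ⟨0, lt_trans zero_lt_one hcon⟩⟩ : IdxM N)) (a₂ := ⟨⟨γ, hγ⟩, ⟨1, hcon⟩⟩) rfl
  have h2 := congrArg (fun x : IdxM N => (x.2 : ℕ)) h1
  simp at h2

end Pool.Agent.H112.NF
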