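import Pool.Agent.H112.NF.Expo
import Pool.Graph.R_pool_sql_team_seeded_3997aac3.Q68.LM.RL
import Pool.Graph.R_pool_sql_team_seeded_3997aac3.Q68.LM.LI

/-!
# Project NF: moments of the prime sum of all Artin L-functions of an extension
-/

set_option autoImplicit false
set_option linter.unusedSectionVars false

namespace Pool.Agent.H112.NF

open MeasureTheory Filter Topology Set Complex NumberField IsDedekindDomain
open Pool.Agent.Q253.NF
open Pool.Agent.Q253.LM (NoRel IdxM)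
open Pool.Agent.Q253.LQ (I0)
open Pool.Agent.Q92.AR (Unramified frob Continues LP artinL fixer cont cont_spec exists_continues)
open Pool.Agent.Q92.RT (induced)
open Pool.Agent.H541R3.ART (Irr irrF mem_irrF)

theorem noRel_of_equiv {ι κ : Type} (e : ι ≃ κ) (g : κ → ℝ) {k : ℕ} (h : NoRel g k) :
    NoRel (fun i => g (e i)) k := by
  intro n h1 h2 h3
  have hs : (Finsupp.equivMapDomain e n).support = n.support.map e.toEmbedding := by
    ext x
    simp only [Finsupp.mem_support_iff, Finsupp.equivMapDomain_apply, Finset.mem_map, Equiv.coe_toEmbedding]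
    constructor
    · intro hx
      exact ⟨e.symm x, hx, by simp⟩
    · rintro ⟨y, hy, rfl⟩
      simpa using hy
  have h4 : ∑ i ∈ (Finsupp.equivMapDomain e n).support, |Finsupp.equivMapDomain e n i| = ∑ i ∈ n.support, |n i| := by
    rw [hs, Finset.sum_map]
    simp [Finsupp.equivMapDomain_apply]
  have h5 := h (Finsupp.equivMapDomain e n) (by
    rw [hs, Finset.sum_map]
    simpa [Finsupp.equivMapDomain_apply] using h1) (by rw [h4]; exact h2) (by rw [h4]; exact h3)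
  ext i
  have h6 := DFunLike.congr_fun h5 (e i)
  simpa [Finsupp.equivMapDomain_apply] using h6

theorem noRel_equiv {ι κ : Type} (e : ι ≃ κ) (g : κ → ℝ) (k : ℕ) :
    NoRel (fun i => g (e i)) k ↔ NoRel g k := by
  refine ⟨fun h => ?_, noRel_of_equiv e g⟩
  have := noRel_of_equiv e.symm (fun i => g (e i)) h
  simpa using this

section
variable {K M : Type} [Field K] [NumberField K] [Field M] [NumberField M] [Algebra K M] [IsGalois K M]

/-- the `k`-th moment for independent frequencies -/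
noncomputable def mu (r : Subgroup (M ≃ₐ[K] M) → ℚ) (n k : ℕ) : ℝ :=
  iteratedDeriv k (fun lam => RR (KK r) lam / Real.sqrt (I0 ((4 * lam : ℝ) : ℂ)).re ^ n) 0

/-- the two forms of the condition -/
theorem noRel_two (h : ∀ χ ∈ irrF (M ≃ₐ[K] M), ∀ γ : ℝ, 0 < γ → 0 ≤ ordA χ (1 / 2 + γ * I)) (k : ℕ) :
    NoRel (fun x : (Σ χ : {χ // χ ∈ irrF (M ≃ₐ[K] M)}, Σ γ : {γ : ℝ // 0 < γ},
      Fin (ordA χ.1 (1 / 2 + (γ : ℝ) * I)).toNat) => (x.2.1 : ℝ)) k ↔
    NoRel (fun i : IdxM (fun γ => (NN K M γ).toNat) => (i.1 : ℝ)) k := by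
  let f : (γ : {γ : ℝ // 0 < γ}) → Fin (∑ χ : {χ // χ ∈ irrF (M ≃ₐ[K] M)}, (ordA χ.1 (1 / 2 + (γ : ℝ) * I)).toNat) ≃
      Fin (NN K M γ).toNat := fun γ => finCongr (by
    have h2 : ((∑ χ : {χ // χ ∈ irrF (M ≃ₐ[K] M)}, (ordA χ.1 (1 / 2 + (γ : ℝ) * I)).toNat : ℕ) : ℤ) = NN K M γ := by
      push_cast
      unfold NN
      rw [← Finset.sum_coe_sort (irrF (M ≃ₐ[K] M)) fun χ => ordA χ (1 / 2 + γ * I)]
      exact Finset.sum_congr rfl fun χ _ => Int.toNat_of_nonneg (h χ.1 χ.2 γ γ.2)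
    rw [← h2, Int.toNat_natCast])
  exact noRel_equiv ((idxE fun (χ : {χ // χ ∈ irrF (M ≃ₐ[K] M)}) γ => (ordA χ.1 (1 / 2 + (γ : ℝ) * I)).toNat).trans
    (Equiv.sigmaCongrRight f)) (fun i : IdxM (fun γ => (NN K M γ).toNat) => (i.1 : ℝ)) k

/-- the moments -/
theorem mom_main (hG : ∀ χ ∈ Irr (M ≃ₐ[K] M), GRH χ) (h0 : ∀ γ, 0 ≤ NN K M γ)
    {r : Subgroup (M ≃ₐ[K] M) → ℚ} (hr : Rel r) (k : ℕ) :
    Tendsto (fun U : ℝ => (1 / U) * ∫ u in (0 : ℝ)..U, (ff K M u - 2 * ((NN K M 0).toNat : ℝ)) ^ k) atTop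
      (𝓝 (TN (fun γ => (NN K M γ).toNat) k)) ∧
    mu r (NN K M 0).toNat k ≤ TN (fun γ => (NN K M γ).toNat) k ∧
    (NoRel (fun i : IdxM (fun γ => (NN K M γ).toNat) => (i.1 : ℝ)) k ↔
      TN (fun γ => (NN K M γ).toNat) k = mu r (NN K M 0).toNat k) ∧
    (NoRel (fun i : IdxM (fun γ => (NN K M γ).toNat) => (i.1 : ℝ)) k ↔
      ∀ ε : ℝ, 0 < ε → ∀ᶠ U : ℝ in atTop,
        (1 / U) * ∫ u in (0 : ℝ)..U, (ff K M u - 2 * ((NN K M 0).toNat : ℝ)) ^ k ≤ mu r (NN K M 0).toNat k + ε) ∧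
    (Odd k → mu r (NN K M 0).toNat k = 0) := by
  obtain ⟨-, h2⟩ := Pool.Agent.Q129.NF.t_MOMT (fun γ => (NN K M γ).toNat) (ff K M) (KK r) (apf hG h0) (kt hG h0 hr)
  obtain ⟨h3, h4, h5, h6⟩ := h2 k
  have h7 := Pool.Agent.Q68.LM.t_RL (fun γ => (NN K M γ).toNat) k
  have h8 : NoRel (fun i : IdxM (fun γ => (NN K M γ).toNat) => (i.1 : ℝ)) k ↔
      TN (fun γ => (NN K M γ).toNat) k = mu r (NN K M 0).toNat k := h7.trans h6.symm
  refine ⟨h3, h5, h8, ?_, h4⟩
  rw [h8]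
  constructor
  · intro h9 ε hε
    have h10 := h3
    rw [h9] at h10
    exact (h10.eventually (eventually_lt_nhds (lt_add_of_pos_right _ hε))).mono fun U hU => hU.le
  · intro h9
    refine le_antisymm ?_ h5
    exact le_of_forall_pos_le_add fun ε hε => le_of_tendsto h3 (h9 ε hε)

end

end Pool.Agent.H112.NF
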