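import Pool.Agent.H112.NF.Fld

/-!
# Project NF: the sum of the mean squares of all Artin L-functions of an extension
-/

set_option autoImplicit false
set_option linter.unusedSectionVars false

namespace Pool.Agent.H112.NF

open MeasureTheory Filter Topology Set Complex NumberField IsDedekindDomain
open Pool.Agent.Q253.NF
open Pool.Agent.Q92.AR (Unramified frob Continues LP artinL fixer cont cont_spec exists_continues)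
open Pool.Agent.Q92.RT (induced)
open Pool.Agent.H541R3.ART (Irr irrF mem_irrF)
open scoped ComplexConjugate

section
variable {K M : Type} [Field K] [NumberField K] [Field M] [NumberField M] [Algebra K M] [IsGalois K M]

/-- the excess of the mean square -/
noncomputable def ex (χ : (M ≃ₐ[K] M) → ℂ) : ℝ :=
  ∑' γ : ℝ, (ordA χ (1 / 2 + γ * I) : ℝ) * ((ordA χ (1 / 2 + γ * I) : ℝ) - 1) * (2 / (1 + γ ^ 2)) ^ 2

theorem term_nonneg (m : ℤ) (x : ℝ) : 0 ≤ (m : ℝ) * ((m : ℝ) - 1) * x ^ 2 := by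
  refine mul_nonneg ?_ (sq_nonneg _)
  have h : 0 ≤ m * (m - 1) := by
    rcases le_or_gt m 0 with h | h <;> nlinarith
  exact_mod_cast h

theorem ex_nonneg (χ : (M ≃ₐ[K] M) → ℂ) : 0 ≤ ex χ := tsum_nonneg fun _ => term_nonneg _ _

theorem term_le_ex {χ : (M ≃ₐ[K] M) → ℂ} (hχ : χ ∈ Irr (M ≃ₐ[K] M)) (hG : GRH χ) (γ : ℝ) :
    (ordA χ (1 / 2 + γ * I) : ℝ) * ((ordA χ (1 / 2 + γ * I) : ℝ) - 1) * (2 / (1 + γ ^ 2)) ^ 2 ≤ ex χ :=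
  (art_msq hχ (exists_pk K M hχ).some hG).2.1.le_tsum γ fun _ _ => term_nonneg _ _

theorem tend_one {χ : (M ≃ₐ[K] M) → ℂ} (hχ : χ ∈ Irr (M ≃ₐ[K] M)) (hG : GRH χ) :
    Tendsto (WW χ) atTop (𝓝 (VA χ + ex χ)) := by
  rw [VA_eq hχ]
  exact (art_msq hχ (exists_pk K M hχ).some hG).2.2.1

theorem WW_nonneg (χ : (M ≃ₐ[K] M) → ℂ) : ∀ᶠ U : ℝ in atTop, 0 ≤ WW χ U := by
  filter_upwards [eventually_ge_atTop (0 : ℝ)] with U hU
  unfold WW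
  exact mul_nonneg (by positivity) (intervalIntegral.integral_nonneg hU fun u _ => by positivity)

variable (K M) in
theorem grh_all {C : ℝ} (h : ∀ᶠ U : ℝ in atTop, ∑ χ ∈ irrF (M ≃ₐ[K] M), WW χ U ≤ C) :
    ∀ χ ∈ Irr (M ≃ₐ[K] M), GRH χ := by
  intro χ hχ
  rw [grh_iff_bdd hχ]
  refine ⟨C, ?_⟩
  have h1 : ∀ᶠ U : ℝ in atTop, ∀ χ ∈ irrF (M ≃ₐ[K] M), 0 ≤ WW χ U :=
    (Filter.eventually_all_finset _).2 fun χ _ => WW_nonneg χ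
  filter_upwards [h, h1] with U hU hU1
  exact (Finset.single_le_sum (f := fun χ => WW χ U) (fun χ hχ => hU1 χ hχ) (mem_irrF.2 hχ)).trans hU

theorem tend_all (hG : ∀ χ ∈ Irr (M ≃ₐ[K] M), GRH χ) {r : Subgroup (M ≃ₐ[K] M) → ℚ} (hr : Rel r) :
    Tendsto (fun U => ∑ χ ∈ irrF (M ≃ₐ[K] M), WW χ U) atTop
      (𝓝 (VG r + ∑ χ ∈ irrF (M ≃ₐ[K] M), ex χ)) := by
  rw [← sum_VA hG hr, ← Finset.sum_add_distrib]
  exact tendsto_finsetSum _ fun χ hχ => tend_one (mem_irrF.1 hχ) (hG χ (mem_irrF.1 hχ))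

theorem bound_iff {r : Subgroup (M ≃ₐ[K] M) → ℚ} (hr : Rel r) (δ : ℝ) :
    (∀ ε : ℝ, 0 < ε → ∀ᶠ U : ℝ in atTop, ∑ χ ∈ irrF (M ≃ₐ[K] M), WW χ U ≤ VG r + δ + ε) ↔
      (∀ χ ∈ Irr (M ≃ₐ[K] M), GRH χ) ∧ ∑ χ ∈ irrF (M ≃ₐ[K] M), ex χ ≤ δ := by
  constructor
  · intro h
    have hG := grh_all K M (h 1 one_pos)
    refine ⟨hG, le_of_forall_pos_le_add fun ε hε => ?_⟩
    have h1 := le_of_tendsto (tend_all hG hr) (h ε hε)
    linarith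
  · rintro ⟨hG, h⟩ ε hε
    exact ((tend_all hG hr).eventually_lt_const (by linarith)).mono fun U hU => hU.le

theorem zero_one {m : ℤ} {γ : ℝ} (h : (m : ℝ) * ((m : ℝ) - 1) * (2 / (1 + γ ^ 2)) ^ 2 ≤ 0) : 0 ≤ m ∧ m ≤ 1 := by
  have h3 : (0 : ℝ) < (2 / (1 + γ ^ 2)) ^ 2 := by positivity
  have h4 : (m : ℝ) * ((m : ℝ) - 1) ≤ 0 := by
    by_contra h5
    push Not at h5
    have := mul_pos h5 h3
    linarith
  have h5 : m * (m - 1) ≤ 0 := by exact_mod_cast h4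
  constructor
  · by_contra h6
    push Not at h6
    nlinarith
  · by_contra h6
    push Not at h6
    nlinarith

variable (K M) in
/-- Artin's conjecture, the Riemann hypothesis, and simple zeros -/
def Nice : Prop := ∀ χ ∈ Irr (M ≃ₐ[K] M), GRH χ ∧ ∀ γ : ℝ, 0 ≤ ordA χ (1 / 2 + γ * I) ∧ ordA χ (1 / 2 + γ * I) ≤ 1

theorem nice_iff {r : Subgroup (M ≃ₐ[K] M) → ℚ} (hr : Rel r) :
    Nice K M ↔ ∀ ε : ℝ, 0 < ε → ∀ᶠ U : ℝ in atTop, ∑ χ ∈ irrF (M ≃ₐ[K] M), WW χ U ≤ VG r + ε := by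
  have h0 := bound_iff hr 0
  simp only [add_zero] at h0
  rw [h0]
  constructor
  · intro h
    refine ⟨fun χ hχ => (h χ hχ).1, le_of_eq (Finset.sum_eq_zero fun χ hχ => ?_)⟩
    unfold ex
    rw [← tsum_zero (β := ℝ)]
    refine tsum_congr fun γ => ?_
    obtain ⟨h1, h2⟩ := (h χ (mem_irrF.1 hχ)).2 γ
    have h6 : ordA χ (1 / 2 + γ * I) = 0 ∨ ordA χ (1 / 2 + γ * I) = 1 := by omega
    rcases h6 with h6 | h6 <;> rw [h6] <;> norm_num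
  · rintro ⟨hG, h⟩ χ hχ
    refine ⟨hG χ hχ, fun γ => zero_one (γ := γ) ?_⟩
    refine (term_le_ex hχ (hG χ hχ) γ).trans ?_
    exact (Finset.single_le_sum (f := fun χ => ex χ) (fun χ _ => ex_nonneg χ) (mem_irrF.2 hχ)).trans h

/-- the same without a condition at the central point -/
theorem nice_iff' {r : Subgroup (M ≃ₐ[K] M) → ℚ} (hr : Rel r) :
    (∀ χ ∈ Irr (M ≃ₐ[K] M), GRH χ ∧ ∀ γ : ℝ, γ ≠ 0 →
      0 ≤ ordA χ (1 / 2 + γ * I) ∧ ordA χ (1 / 2 + γ * I) ≤ 1) ↔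
    ∀ ε : ℝ, 0 < ε → ∀ᶠ U : ℝ in atTop, ∑ χ ∈ irrF (M ≃ₐ[K] M), WW χ U ≤ VG r +
      ∑ χ ∈ irrF (M ≃ₐ[K] M), 4 * ((ordA χ (1 / 2) : ℝ) * ((ordA χ (1 / 2) : ℝ) - 1)) + ε := by
  rw [bound_iff hr]
  have hc : ∀ χ : (M ≃ₐ[K] M) → ℂ, (ordA χ (1 / 2 + ((0 : ℝ) : ℂ) * I) : ℝ) *
      ((ordA χ (1 / 2 + ((0 : ℝ) : ℂ) * I) : ℝ) - 1) * (2 / (1 + (0 : ℝ) ^ 2)) ^ 2 =
      4 * ((ordA χ (1 / 2) : ℝ) * ((ordA χ (1 / 2) : ℝ) - 1)) := by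
    intro χ
    rw [Complex.ofReal_zero, zero_mul, add_zero]
    ring
  constructor
  · intro h
    refine ⟨fun χ hχ => (h χ hχ).1, le_of_eq (Finset.sum_congr rfl fun χ hχ => ?_)⟩
    unfold ex
    rw [← hc]
    refine tsum_eq_single 0 fun γ hγ => ?_
    obtain ⟨h1, h2⟩ := (h χ (mem_irrF.1 hχ)).2 γ hγ
    have h6 : ordA χ (1 / 2 + γ * I) = 0 ∨ ordA χ (1 / 2 + γ * I) = 1 := by omega
    rcases h6 with h6 | h6 <;> rw [h6] <;> norm_num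
  · rintro ⟨hG, h⟩ χ hχ
    refine ⟨hG χ hχ, fun γ hγ => zero_one (γ := γ) ?_⟩
    -- every excess is at least its central term, so it is equal to it
    have h1 : ∀ χ ∈ irrF (M ≃ₐ[K] M), 4 * ((ordA χ (1 / 2) : ℝ) * ((ordA χ (1 / 2) : ℝ) - 1)) ≤ ex χ := by
      intro χ hχ
      rw [← hc]
      exact term_le_ex (mem_irrF.1 hχ) (hG χ (mem_irrF.1 hχ)) 0
    have h2 := (Finset.sum_eq_sum_iff_of_le h1).1 (le_antisymm (Finset.sum_le_sum h1) h) χ (mem_irrF.2 hχ)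
    have h3 := (art_msq hχ (exists_pk K M hχ).some (hG χ hχ)).2.1
    have h4 : (ordA χ (1 / 2 + ((0 : ℝ) : ℂ) * I) : ℝ) *
      ((ordA χ (1 / 2 + ((0 : ℝ) : ℂ) * I) : ℝ) - 1) * (2 / (1 + (0 : ℝ) ^ 2)) ^ 2 +
      (ordA χ (1 / 2 + (γ : ℂ) * I) : ℝ) * ((ordA χ (1 / 2 + (γ : ℂ) * I) : ℝ) - 1) *
        (2 / (1 + γ ^ 2)) ^ 2 ≤ ex χ := by
      have h5 := h3.sum_le_tsum {0, γ} fun _ _ => term_nonneg _ _
      rwa [Finset.sum_pair hγ.symm] at h5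
    rw [hc, h2] at h4
    linarith

end

end Pool.Agent.H112.NF
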