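import Pool.Graph.R_pool_sql_team_seeded_3997aac3.Q253.NF.Stm
import Pool.Graph.R_pool_sql_team_seeded_1acbe0a2.Y818.FV.LOGD

/-!
# Project NF (helper253), job PF: partial fractions (helper112)
-/

set_option autoImplicit false

namespace Pool.Agent.H112.NF

open MeasureTheory Filter Topology Set Complex Metric
open Pool.Agent.Q253.NF
open Pool.Agent.Y818.FV
open scoped ComplexConjugate

variable (D : Dat)

lemma X_ne {z : ℂ} (hz : 1 / 2 < |z.re|) : D.X z ≠ 0 := fun h => absurd (D.strip z h) (not_le.2 hz)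

lemma m_strip {a : ℂ} (ha : D.m a ≠ 0) : |a.re| ≤ 1 / 2 := by
  by_contra h
  push Not at h
  apply ha
  unfold Dat.m analyticOrderNatAt
  rw [(D.diff.analyticAt a).analyticOrderAt_eq_zero.2 (X_ne D h)]
  rfl

/-- the shifted function -/
noncomputable def F (v : ℂ) : ℂ := D.X (v + 1)

lemma F_diff : Differentiable ℂ (F D) := D.diff.comp (differentiable_id.add_const 1)

lemma F_zero : F D 0 ≠ 0 := by
  unfold F
  rw [zero_add]
  exact X_ne D (by norm_num)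

lemma hd (u : ℂ) : HasDerivAt (fun v : ℂ => v + 1) 1 u := (hasDerivAt_id u).add_const 1

lemma F_ord (u : ℂ) : analyticOrderNatAt (F D) u = D.m (u + 1) := by
  have h1 := analyticOrderAt_comp_of_deriv_ne_zero (f := D.X) (g := fun v : ℂ => v + 1) (z₀ := u)
    (by fun_prop) (by rw [(hd u).deriv]; exact one_ne_zero)
  unfold Dat.m analyticOrderNatAt
  congr 1

lemma F_log (u : ℂ) : logDeriv (F D) u = logDeriv D.X (u + 1) := by
  have h := logDeriv_comp (f := D.X) (g := fun v : ℂ => v + 1) (x := u) (D.diff _)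
    (hd u).differentiableAt
  rw [(hd u).deriv, mul_one] at h
  exact h

/-- the growth on a large disc -/
lemma F_gr (δ : ℝ) (hδ : 0 < δ) : ∃ K : ℝ, ∀ ρ : ℝ, 0 ≤ ρ → ∀ w ∈ closedBall (0 : ℂ) (2 * ρ),
    ‖F D w‖ ≤ Real.exp (K + δ * (1 + 2 * ρ) ^ 2) := by
  obtain ⟨K, hK, h⟩ := D.gr δ hδ
  refine ⟨Real.log K, fun ρ hρ w hw => ?_⟩
  rw [mem_closedBall_zero_iff] at hw
  rw [Real.exp_add, Real.exp_log hK]
  refine (h _).trans ?_
  have h1 : ‖w + 1‖ ≤ 1 + 2 * ρ := by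
    refine (norm_add_le _ _).trans ?_
    rw [norm_one]
    linarith
  gcongr

/-- the finite sums -/
noncomputable def T (ρ : ℝ) (z w : ℂ) : ℂ :=
  ∑' a : ℂ, (if ‖a - 1‖ ≤ ρ then (D.m a : ℂ) else 0) * (1 / (z - a) - 1 / (w - a))

lemma T_eq (ρ : ℝ) (z w : ℂ) :
    ∑ᶠ u, logd_D (F D) ρ u * (1 / (z - 1 - u) - 1 / (w - 1 - u)) = T D ρ z w := by
  rw [← tsum_eq_finsum (L := SummationFilter.unconditional ℂ) (logd_fin (F := F D) ρ _)]
  unfold T
  rw [← (Equiv.subRight (1 : ℂ)).tsum_eq]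
  refine tsum_congr fun a => ?_
  simp only [Equiv.subRight_apply]
  have e1 : z - 1 - (a - 1) = z - a := by ring
  have e2 : w - 1 - (a - 1) = w - a := by ring
  rw [e1, e2]
  congr 1
  split_ifs with h
  · rw [logd_in (F_diff D) (F_zero D) (by rwa [mem_closedBall_zero_iff]), F_ord]
    congr 2
    ring
  · exact logd_out (by rwa [mem_closedBall_zero_iff])

lemma T_lim {z w : ℂ} (hz : 1 / 2 < |z.re|) (hw : 1 / 2 < |w.re|) :
    Tendsto (fun ρ : ℝ => T D ρ z w) atTop (𝓝 (logDeriv D.X z - logDeriv D.X w)) := by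
  rw [Metric.tendsto_atTop]
  intro ε hε
  obtain ⟨δ, hδ0, hδ⟩ : ∃ δ : ℝ, 0 < δ ∧ 128 * (δ * 9) * ‖z - w‖ < ε / 2 := by
    refine ⟨ε / (2 * (128 * 9 * (‖z - w‖ + 1))), by positivity, ?_⟩
    have h0 := norm_nonneg (z - w)
    rw [show 128 * (ε / (2 * (128 * 9 * (‖z - w‖ + 1))) * 9) * ‖z - w‖ =
      (ε / 2) * (‖z - w‖ / (‖z - w‖ + 1)) by field_simp]
    have h1 : ‖z - w‖ / (‖z - w‖ + 1) < 1 := by
      rw [div_lt_one (by linarith)]
      linarith
    nlinarith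
  obtain ⟨K, hK⟩ := F_gr D δ hδ0
  set c : ℝ := |K - Real.log ‖F D 0‖ + 1| with hc
  have hc0 : 0 ≤ c := abs_nonneg _
  have hlim : Tendsto (fun ρ : ℝ => 128 * c * ‖z - w‖ * (ρ ^ 2)⁻¹) atTop (𝓝 0) := by
    have h3 : Tendsto (fun ρ : ℝ => (ρ ^ 2)⁻¹) atTop (𝓝 0) :=
      (tendsto_pow_atTop (by norm_num)).inv_tendsto_atTop
    simpa using h3.const_mul (128 * c * ‖z - w‖)
  obtain ⟨ρ₀, h0⟩ := Filter.eventually_atTop.1 ((hlim.eventually (gt_mem_nhds (half_pos hε))).and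
    ((eventually_ge_atTop (8 * ‖z - 1‖)).and ((eventually_ge_atTop (8 * ‖w - 1‖)).and
    (eventually_ge_atTop (1 : ℝ)))))
  refine ⟨ρ₀, fun ρ hρ => ?_⟩
  obtain ⟨h1, h2, h3, h4⟩ := h0 ρ hρ
  have hρ0 : 0 < ρ := by linarith
  have hne : ∀ {y : ℂ}, 1 / 2 < |y.re| → F D (y - 1) ≠ 0 := by
    intro y hy
    unfold F
    rw [sub_add_cancel]
    exact X_ne D hy
  have h5 := logd_finite (F_diff D) (F_zero D) hρ0 (hK ρ hρ0.le) (w := z - 1) (w' := w - 1)
    (by linarith) (by linarith) (hne hz) (hne hw)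
  rw [T_eq, F_log, F_log, sub_add_cancel, sub_add_cancel, sub_sub_sub_cancel_right] at h5
  rw [dist_comm, dist_eq_norm]
  refine lt_of_le_of_lt h5 ?_
  have h6 : (K + δ * (1 + 2 * ρ) ^ 2 - Real.log ‖F D 0‖ + 1) ≤ c + δ * 9 * ρ ^ 2 := by
    have h7 : K - Real.log ‖F D 0‖ + 1 ≤ c := le_abs_self _
    have h8 : (1 + 2 * ρ) ^ 2 ≤ 9 * ρ ^ 2 := by nlinarith
    nlinarith
  calc 128 * (K + δ * (1 + 2 * ρ) ^ 2 - Real.log ‖F D 0‖ + 1) / ρ ^ 2 * ‖z - w‖
      ≤ 128 * (c + δ * 9 * ρ ^ 2) / ρ ^ 2 * ‖z - w‖ := by gcongr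
    _ = 128 * c * ‖z - w‖ * (ρ ^ 2)⁻¹ + 128 * (δ * 9) * ‖z - w‖ := by
        field_simp
    _ < ε / 2 + ε / 2 := by linarith
    _ = ε := by ring

/-- the real parts of the terms for `z = 1`, `w = -1` -/
lemma re_term {a : ℂ} (ha : |a.re| ≤ 1 / 2) :
    (6 / 7) * (1 / (1 + ‖a‖ ^ 2)) ≤ (1 / (1 - a) - 1 / (-1 - a)).re := by
  obtain ⟨x, y, rfl⟩ : ∃ x y : ℝ, a = ⟨x, y⟩ := ⟨a.re, a.im, rfl⟩
  simp only at ha
  rw [abs_le] at ha
  have hx2 : x ^ 2 ≤ 1 / 4 := by nlinarith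
  have e0 : ‖(⟨x, y⟩ : ℂ)‖ ^ 2 = x ^ 2 + y ^ 2 := by
    rw [← Complex.normSq_eq_norm_sq, Complex.normSq_mk]
    ring
  have e1 : (1 / (1 - (⟨x, y⟩ : ℂ))).re = (1 - x) / ((1 - x) ^ 2 + y ^ 2) := by
    rw [one_div, Complex.inv_re]
    simp [Complex.normSq_apply]
    ring_nf
  have e2 : (1 / (-1 - (⟨x, y⟩ : ℂ))).re = (-1 - x) / ((1 + x) ^ 2 + y ^ 2) := by
    rw [one_div, Complex.inv_re]
    simp [Complex.normSq_apply]
    ring_nf
  rw [Complex.sub_re, e0, e1, e2]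
  have p1 : 0 < (1 - x) ^ 2 + y ^ 2 := by nlinarith [sq_nonneg y]
  have p2 : 0 < (1 + x) ^ 2 + y ^ 2 := by nlinarith [sq_nonneg y]
  have p3 : 0 < 1 + (x ^ 2 + y ^ 2) := by positivity
  have key : (1 - x) / ((1 - x) ^ 2 + y ^ 2) - (-1 - x) / ((1 + x) ^ 2 + y ^ 2) =
      2 * (1 - x ^ 2 + y ^ 2) / (((1 - x) ^ 2 + y ^ 2) * ((1 + x) ^ 2 + y ^ 2)) := by
    field_simp
    ring
  rw [key, ← mul_div_assoc, mul_one, div_le_div_iff₀ p3 (mul_pos p1 p2)]
  set t := x ^ 2 with ht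
  set s := y ^ 2 with hs
  have hs0 : 0 ≤ s := sq_nonneg y
  have ht0 : 0 ≤ t := sq_nonneg x
  have e3 : ((1 - x) ^ 2 + y ^ 2) * ((1 + x) ^ 2 + y ^ 2) = (1 - t + s) ^ 2 + 4 * t * s := by
    rw [ht, hs]
    ring
  rw [e3]
  nlinarith [mul_nonneg hs0 ht0, mul_nonneg hs0 (sub_nonneg.2 hx2), mul_nonneg ht0 (sub_nonneg.2 hx2)]

lemma summ : Summable (fun a : ℂ => (D.m a : ℝ) / (1 + ‖a‖ ^ 2)) := by
  have hb := (T_lim D (z := 1) (w := -1) (by norm_num) (by norm_num)).norm.isBoundedUnder_le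
  obtain ⟨B, hB⟩ := hb
  rw [Filter.eventually_map, Filter.eventually_atTop] at hB
  obtain ⟨ρ₀, hB⟩ := hB
  refine summable_of_sum_le (c := 7 / 6 * B) (fun a => by positivity) fun s => ?_
  obtain ⟨R, hR⟩ : ∃ R : ℝ, ∀ a ∈ s, ‖a - 1‖ ≤ R := by
    obtain ⟨R, hR⟩ := (s.finite_toSet.image fun a : ℂ => ‖a - 1‖).bddAbove
    exact ⟨R, fun a ha => hR (Set.mem_image_of_mem _ ha)⟩
  set ρ := max R ρ₀ with hρ
  have h1 := hB ρ (le_max_right _ _)
  have hfin : (Function.support fun a : ℂ => (if ‖a - 1‖ ≤ ρ then (D.m a : ℂ) else 0)).Finite := by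
    refine ((logd_support (F := F D) ρ).image fun u : ℂ => u + 1).subset ?_
    intro a ha
    rw [Function.mem_support] at ha
    refine ⟨a - 1, ?_, by ring⟩
    rw [Function.mem_support]
    by_cases h : ‖a - 1‖ ≤ ρ
    · rw [if_pos h] at ha
      rw [logd_in (F_diff D) (F_zero D) (by rwa [mem_closedBall_zero_iff]), F_ord, sub_add_cancel]
      exact ha
    · rw [if_neg h] at ha
      exact absurd rfl ha
  have hsm : Summable fun a : ℂ => (if ‖a - 1‖ ≤ ρ then (D.m a : ℂ) else 0) * (1 / (1 - a) - 1 / (-1 - a)) := by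
    refine summable_of_hasFiniteSupport (hfin.subset ?_)
    intro a ha
    rw [Function.mem_support] at ha ⊢
    intro h
    apply ha
    rw [h, zero_mul]
  have h2 : (T D ρ 1 (-1)).re ≤ B := (Complex.re_le_norm _).trans h1
  unfold T at h2
  rw [Complex.re_tsum hsm] at h2
  have hsm' : Summable fun a : ℂ => ((if ‖a - 1‖ ≤ ρ then (D.m a : ℂ) else 0) *
      (1 / (1 - a) - 1 / (-1 - a))).re := (Complex.hasSum_re hsm.hasSum).summable
  have hlow : ∀ a : ℂ, (if ‖a - 1‖ ≤ ρ then (6 / 7) * ((D.m a : ℝ) / (1 + ‖a‖ ^ 2)) else 0) ≤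
      ((if ‖a - 1‖ ≤ ρ then (D.m a : ℂ) else 0) * (1 / (1 - a) - 1 / (-1 - a))).re := by
    intro a
    split_ifs with h
    · rw [← Complex.ofReal_natCast, Complex.re_ofReal_mul]
      by_cases hm : D.m a = 0
      · rw [hm]
        simp
      · have h3 := mul_le_mul_of_nonneg_left (re_term (m_strip D hm)) (Nat.cast_nonneg (α := ℝ) (D.m a))
        refine le_trans (le_of_eq ?_) h3
        ring
    · simp
  have h3 : ∑ a ∈ s, (6 / 7) * ((D.m a : ℝ) / (1 + ‖a‖ ^ 2)) ≤ B := by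
    calc ∑ a ∈ s, (6 / 7) * ((D.m a : ℝ) / (1 + ‖a‖ ^ 2))
        ≤ ∑ a ∈ s, ((if ‖a - 1‖ ≤ ρ then (D.m a : ℂ) else 0) * (1 / (1 - a) - 1 / (-1 - a))).re := by
          refine Finset.sum_le_sum fun a ha => ?_
          have h4 := hlow a
          rwa [if_pos ((hR a ha).trans (le_max_left _ _))] at h4
      _ ≤ ∑' a, ((if ‖a - 1‖ ≤ ρ then (D.m a : ℂ) else 0) * (1 / (1 - a) - 1 / (-1 - a))).re :=
          hsm'.sum_le_tsum s fun a _ => le_trans (by split_ifs <;> positivity) (hlow a)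
      _ ≤ B := h2
  rw [← Finset.mul_sum] at h3
  linarith

/-- distances from points outside of the strip -/
lemma dist_low {z : ℂ} {d : ℝ} (hd : 0 < d) (hz : 1 / 2 + d ≤ |z.re|) {a : ℂ} (ha : |a.re| ≤ 1 / 2) :
    (1 + ‖a‖) ≤ (1 + (1 + ‖z‖) / d) * ‖z - a‖ := by
  have h1 : d ≤ ‖z - a‖ := by
    have h2 : |z.re| - |a.re| ≤ |(z - a).re| := by
      rw [Complex.sub_re]
      exact abs_sub_abs_le_abs_sub _ _
    have h3 := Complex.abs_re_le_norm (z - a)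
    linarith
  have h2 : ‖a‖ ≤ ‖z‖ + ‖z - a‖ := by
    have h3 : a = z - (z - a) := by ring
    calc ‖a‖ = ‖z - (z - a)‖ := by rw [← h3]
      _ ≤ _ := norm_sub_le _ _
  have h3 : (1 + ‖z‖) ≤ (1 + ‖z‖) / d * ‖z - a‖ := by
    rw [div_mul_eq_mul_div, le_div_iff₀ hd]
    have := norm_nonneg z
    gcongr
  rw [add_mul, one_mul]
  linarith

lemma inv_le {z : ℂ} {d : ℝ} (hd : 0 < d) (hz : 1 / 2 + d ≤ |z.re|) {a : ℂ} (ha : |a.re| ≤ 1 / 2) :
    ‖1 / (z - a)‖ ≤ (1 + (1 + ‖z‖) / d) / (1 + ‖a‖) := by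
  have h1 := dist_low hd hz ha
  have h2 : 0 < 1 + ‖a‖ := by positivity
  have h3 : 0 < ‖z - a‖ := by
    have h4 : 0 < 1 + (1 + ‖z‖) / d := by positivity
    by_contra h5
    push Not at h5
    nlinarith
  rw [norm_div, norm_one, div_le_div_iff₀ h3 h2, one_mul]
  exact h1

lemma sq_le (a : ℂ) : 1 / (1 + ‖a‖) ^ 2 ≤ 1 / (1 + ‖a‖ ^ 2) := by
  have h := norm_nonneg a
  apply one_div_le_one_div_of_le (by positivity)
  nlinarith

/-- the terms of the series -/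
lemma term_le {z w : ℂ} {d : ℝ} (hd : 0 < d) (hz : 1 / 2 + d ≤ |z.re|) (hw : 1 / 2 + d ≤ |w.re|) (a : ℂ) :
    ‖(D.m a : ℂ) * (1 / (z - a) - 1 / (w - a))‖ ≤
      (‖w - z‖ * ((1 + (1 + ‖z‖) / d) * (1 + (1 + ‖w‖) / d))) * ((D.m a : ℝ) / (1 + ‖a‖ ^ 2)) := by
  by_cases hm : D.m a = 0
  · rw [hm]
    simp
  have ha := m_strip D hm
  have h1 := inv_le hd hz ha
  have h2 := inv_le hd hw ha
  have nz : z - a ≠ 0 := by
    intro h
    rw [sub_eq_zero] at h
    rw [h] at hz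
    linarith
  have nw : w - a ≠ 0 := by
    intro h
    rw [sub_eq_zero] at h
    rw [h] at hw
    linarith
  have e : 1 / (z - a) - 1 / (w - a) = (w - z) * (1 / (z - a)) * (1 / (w - a)) := by
    field_simp
    ring
  rw [e, norm_mul, norm_mul, norm_mul, Complex.norm_natCast]
  calc (D.m a : ℝ) * (‖w - z‖ * ‖1 / (z - a)‖ * ‖1 / (w - a)‖)
      ≤ (D.m a : ℝ) * (‖w - z‖ * ((1 + (1 + ‖z‖) / d) / (1 + ‖a‖)) * ((1 + (1 + ‖w‖) / d) / (1 + ‖a‖))) := by
        gcongr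
    _ = (‖w - z‖ * ((1 + (1 + ‖z‖) / d) * (1 + (1 + ‖w‖) / d))) * (D.m a * (1 / (1 + ‖a‖) ^ 2)) := by
        field_simp
    _ ≤ (‖w - z‖ * ((1 + (1 + ‖z‖) / d) * (1 + (1 + ‖w‖) / d))) * (D.m a * (1 / (1 + ‖a‖ ^ 2))) := by
        have := sq_le a
        gcongr
    _ = _ := by ring

lemma exists_d {z w : ℂ} (hz : 1 / 2 < |z.re|) (hw : 1 / 2 < |w.re|) :
    ∃ d : ℝ, 0 < d ∧ 1 / 2 + d ≤ |z.re| ∧ 1 / 2 + d ≤ |w.re| :=
  ⟨min (|z.re| - 1 / 2) (|w.re| - 1 / 2), lt_min (by linarith) (by linarith),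
    by linarith [min_le_left (|z.re| - 1 / 2) (|w.re| - 1 / 2)],
    by linarith [min_le_right (|z.re| - 1 / 2) (|w.re| - 1 / 2)]⟩

lemma main {z w : ℂ} (hz : 1 / 2 < |z.re|) (hw : 1 / 2 < |w.re|) :
    logDeriv D.X z - logDeriv D.X w = ∑' a : ℂ, (D.m a : ℂ) * (1 / (z - a) - 1 / (w - a)) := by
  obtain ⟨d, hd, hzd, hwd⟩ := exists_d hz hw
  refine tendsto_nhds_unique (T_lim D hz hw) ?_
  unfold T
  refine tendsto_tsum_of_dominated_convergence ((summ D).mul_left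
    (‖w - z‖ * ((1 + (1 + ‖z‖) / d) * (1 + (1 + ‖w‖) / d)))) ?_ ?_
  · intro a
    refine tendsto_const_nhds.congr' ?_
    filter_upwards [eventually_ge_atTop ‖a - 1‖] with ρ hρ
    rw [if_pos hρ]
  · refine Filter.Eventually.of_forall fun ρ a => ?_
    refine le_trans ?_ (term_le D hd hzd hwd a)
    split_ifs with h
    · exact le_rfl
    · rw [zero_mul, norm_zero]
      exact norm_nonneg _

lemma deriv_log : HasDerivAt (logDeriv D.X) (∑' a : ℂ, (D.m a : ℂ) * (-1 / (1 - a) ^ 2)) 1 := by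
  have hball : ∀ z ∈ ball (1 : ℂ) (1 / 4), 1 / 2 + 1 / 4 ≤ |z.re| ∧ ‖z‖ ≤ 2 := by
    intro z hz
    rw [mem_ball, dist_eq_norm] at hz
    have h1 := Complex.abs_re_le_norm (z - 1)
    rw [Complex.sub_re, Complex.one_re, abs_le] at h1
    constructor
    · refine le_trans ?_ (le_abs_self _)
      linarith [h1.1]
    · have h2 := norm_le_norm_add_norm_sub' z 1
      rw [norm_one] at h2
      linarith
  have h1 : HasDerivAt (fun z : ℂ => ∑' a : ℂ, (D.m a : ℂ) * (1 / (z - a) - 1 / (1 - a)))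
      (∑' a : ℂ, (D.m a : ℂ) * (-1 / (1 - a) ^ 2)) 1 := by
    refine hasDerivAt_tsum_of_isPreconnected (t := ball (1 : ℂ) (1 / 4)) (y₀ := 1)
      (g := fun (a z : ℂ) => (D.m a : ℂ) * (1 / (z - a) - 1 / (1 - a)))
      (g' := fun (a z : ℂ) => (D.m a : ℂ) * (-1 / (z - a) ^ 2))
      ((summ D).mul_left ((1 + (1 + 2) / (1 / 4)) ^ 2)) isOpen_ball
      (convex_ball (1 : ℂ) (1 / 4)).isPreconnected ?_ ?_ (mem_ball_self (by norm_num)) ?_
      (mem_ball_self (by norm_num))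
    · intro a z hz
      by_cases hm : D.m a = 0
      · simp only [hm, Nat.cast_zero, zero_mul]
        exact hasDerivAt_const _ _
      · have ha := m_strip D hm
        have nz : z - a ≠ 0 := by
          intro h
          rw [sub_eq_zero] at h
          have h3 := (hball z hz).1
          rw [h] at h3
          linarith
        have h2 : HasDerivAt (fun z : ℂ => 1 / (z - a)) (-1 / (z - a) ^ 2) z := by
          have h3 := ((hasDerivAt_id z).sub_const a).fun_inv nz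
          simpa [one_div] using h3
        exact (h2.sub_const _).const_mul _
    · intro a z hz
      by_cases hm : D.m a = 0
      · simp [hm]
      · have ha := m_strip D hm
        obtain ⟨h2, h3⟩ := hball z hz
        have h4 := inv_le (d := 1 / 4) (by norm_num) h2 ha
        have e : (D.m a : ℂ) * (-1 / (z - a) ^ 2) = -((D.m a : ℂ) * (1 / (z - a)) ^ 2) := by
          rw [div_pow, one_pow]
          ring
        rw [e, norm_neg, norm_mul, norm_pow, Complex.norm_natCast]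
        calc (D.m a : ℝ) * ‖1 / (z - a)‖ ^ 2
            ≤ (D.m a : ℝ) * ((1 + (1 + 2) / (1 / 4)) / (1 + ‖a‖)) ^ 2 := by
              have h5 : ‖1 / (z - a)‖ ≤ (1 + (1 + 2) / (1 / 4)) / (1 + ‖a‖) := by
                refine h4.trans ?_
                gcongr
              gcongr
          _ = (1 + (1 + 2) / (1 / 4)) ^ 2 * (D.m a * (1 / (1 + ‖a‖) ^ 2)) := by
              rw [div_pow]
              ring
          _ ≤ (1 + (1 + 2) / (1 / 4)) ^ 2 * (D.m a * (1 / (1 + ‖a‖ ^ 2))) := by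
              have := sq_le a
              gcongr
          _ = _ := by ring
    · simp only [sub_self, mul_zero]
      exact summable_zero
  have h2 : logDeriv D.X =ᶠ[𝓝 1] fun z : ℂ => logDeriv D.X 1 +
      ∑' a : ℂ, (D.m a : ℂ) * (1 / (z - a) - 1 / (1 - a)) := by
    filter_upwards [ball_mem_nhds (1 : ℂ) (show (0 : ℝ) < 1 / 4 by norm_num)] with z hz
    rw [← main D (z := z) (w := 1) (by linarith [(hball z hz).1]) (by norm_num)]
    ring
  exact (h1.const_add _).congr_of_eventuallyEq h2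

/-- **Job PF.** -/
theorem pf : S_PF := fun D => ⟨summ D, fun _ _ hz hw => main D hz hw, deriv_log D⟩

end Pool.Agent.H112.NF
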